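import Pool.Agent.Lib.MP_825ff6_co.Pl.Three

/-!
JOB Anti. Three points of a symmetric tightly covered planar body at pairwise maximal distance.

Proof in words. For `m : ℕ` let `s m = 1 - 1 / (m + 2)`. By `coveringNumber_spec` (Basic) and `three_le_card`,
`3 ≤ coveringNumber K (s m)`, so tightness gives a finset `P ⊆ K` with at least three points, no two in a homothet of ratio
`s m`; pick distinct `x m, y m, z m ∈ P` (`Finset.two_lt_card`). Then `(1/2) (x m - y m) ∉ (s m) K` (and cyclically): if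
`(1/2) (x - y) = s k` with `k ∈ K`, then with `t = x - s k`, `x = t + s k` and `y = x - 2 s k = t + s (-k)`, and `-k ∈ K`, so `x, y`
are both in `homothet K t s` and `x = y`. By compactness of `K ×ˢ K ×ˢ K` (`IsCompact.tendsto_subseq`) pass to a subsequence
converging to `(a₁, a₂, a₃)`. If `(1/2) (a₁ - a₂) ∈ interior K`, then, since `s m → 1`, `(s m)⁻¹ (1/2) (x m - y m)` tends to
`(1/2) (a₁ - a₂)` along the subsequence, so it is in `K` for some `m`, i.e. `(1/2) (x m - y m) ∈ (s m) K`: contradiction.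
Same for the other two pairs.
-/

set_option autoImplicit false

namespace Pool.Agent.Lib.MP_825ff6_co.Pl

open Set

private theorem anti_limit {K : Set (ℝ × ℝ)} {x y : ℕ → ℝ × ℝ} {s : ℕ → ℝ} {a b : ℝ × ℝ}
    (hx : Filter.Tendsto x Filter.atTop (nhds a)) (hy : Filter.Tendsto y Filter.atTop (nhds b))
    (hs : Filter.Tendsto s Filter.atTop (nhds 1)) (hs0 : ∀ n, 0 < s n)
    (h : ∀ n, ∀ k ∈ K, (1 / 2 : ℝ) • (x n - y n) ≠ s n • k) :
    (1 / 2 : ℝ) • (a - b) ∉ interior K := by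
  intro hmem
  have h1 : Filter.Tendsto (fun n => (s n)⁻¹ • ((1 / 2 : ℝ) • (x n - y n))) Filter.atTop
      (nhds ((1 : ℝ)⁻¹ • ((1 / 2 : ℝ) • (a - b)))) :=
    (hs.inv₀ one_ne_zero).smul ((hx.sub hy).const_smul (1 / 2 : ℝ))
  rw [inv_one, one_smul] at h1
  obtain ⟨n, hn⟩ := (h1.eventually (isOpen_interior.mem_nhds hmem)).exists
  refine h n _ (interior_subset hn) ?_
  rw [smul_smul, mul_inv_cancel₀ (hs0 n).ne', one_smul]

private theorem anti_step {K : Set (ℝ × ℝ)} (hs : ∀ z ∈ K, -z ∈ K) {s : ℝ} {P : Finset (ℝ × ℝ)}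
    (hP : ∀ t : ℝ × ℝ, ∀ x ∈ P, ∀ y ∈ P, x ∈ homothet K t s → y ∈ homothet K t s → x = y)
    {x y : ℝ × ℝ} (hx : x ∈ P) (hy : y ∈ P) (hxy : x ≠ y) :
    ∀ k ∈ K, (1 / 2 : ℝ) • (x - y) ≠ s • k := by
  intro k hk h
  refine hxy (hP (x - s • k) x hx y hy ⟨k, hk, by abel⟩ ⟨-k, hs k hk, ?_⟩)
  have h1 : x - y = (2 : ℝ) • (s • k) := by
    rw [← h, smul_smul]
    norm_num
  have h2 : y = x - (2 : ℝ) • (s • k) := by
    rw [← h1]
    abel
  rw [h2, two_smul, smul_neg]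
  abel

theorem exists_antipodal {K : Set (ℝ × ℝ)} (hk : IsCompact K) (hi : (interior K).Nonempty)
    (hs : ∀ z ∈ K, -z ∈ K) (h : TightlyCovered K) :
    ∃ a₁ ∈ K, ∃ a₂ ∈ K, ∃ a₃ ∈ K, (1 / 2 : ℝ) • (a₁ - a₂) ∉ interior K ∧
      (1 / 2 : ℝ) • (a₂ - a₃) ∉ interior K ∧ (1 / 2 : ℝ) • (a₃ - a₁) ∉ interior K := by
  have hs0 : ∀ m : ℕ, 0 < 1 - 1 / ((m : ℝ) + 2) := by
    intro m
    have h1 : (0 : ℝ) < (m : ℝ) + 2 := by positivity
    have h2 : 1 / ((m : ℝ) + 2) < 1 := by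
      rw [div_lt_one h1]
      have : (0 : ℝ) ≤ m := Nat.cast_nonneg m
      linarith
    linarith
  have hs1 : ∀ m : ℕ, 1 - 1 / ((m : ℝ) + 2) < 1 := by
    intro m
    have h1 : (0 : ℝ) < 1 / ((m : ℝ) + 2) := by positivity
    linarith
  have hlim : Filter.Tendsto (fun m : ℕ => 1 - 1 / ((m : ℝ) + 2)) Filter.atTop (nhds 1) := by
    have h1 : Filter.Tendsto (fun m : ℕ => (1 : ℝ) / ((m : ℝ) + 2)) Filter.atTop (nhds 0) :=
      Filter.Tendsto.div_atTop tendsto_const_nhds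
        (Filter.tendsto_atTop_add_const_right _ _ tendsto_natCast_atTop_atTop)
    have h2 := (tendsto_const_nhds (x := (1 : ℝ))).sub h1
    rwa [sub_zero] at h2
  have hex : ∀ m : ℕ, ∃ w : (ℝ × ℝ) × (ℝ × ℝ) × (ℝ × ℝ), w ∈ K ×ˢ (K ×ˢ K) ∧
      (∀ k ∈ K, (1 / 2 : ℝ) • (w.1 - w.2.1) ≠ (1 - 1 / ((m : ℝ) + 2)) • k) ∧
      (∀ k ∈ K, (1 / 2 : ℝ) • (w.2.1 - w.2.2) ≠ (1 - 1 / ((m : ℝ) + 2)) • k) ∧
      (∀ k ∈ K, (1 / 2 : ℝ) • (w.2.2 - w.1) ≠ (1 - 1 / ((m : ℝ) + 2)) • k) := by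
    intro m
    obtain ⟨T, hT1, hT2⟩ := coveringNumber_spec hk hi (hs0 m)
    obtain ⟨P, hP1, hP2, hP3⟩ := h _ (hs0 m) (hs1 m)
    have h3 := three_le_card hk hi (hs0 m) (hs1 m) T hT2
    have h4 : 2 < P.card := by
      rw [hP2, ← hT1]
      exact h3
    obtain ⟨x, hx, y, hy, z, hz, hxy, hxz, hyz⟩ := Finset.two_lt_card.mp h4
    exact ⟨(x, y, z), ⟨hP1 hx, hP1 hy, hP1 hz⟩, anti_step hs hP3 hx hy hxy,
      anti_step hs hP3 hy hz hyz, anti_step hs hP3 hz hx hxz.symm⟩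
  choose w hwK hw1 hw2 hw3 using hex
  obtain ⟨a, ha, φ, hφ, hconv⟩ := (hk.prod (hk.prod hk)).tendsto_subseq hwK
  have c1 : Filter.Tendsto (fun n => (w (φ n)).1) Filter.atTop (nhds a.1) :=
    (continuous_fst.tendsto a).comp hconv
  have c2 : Filter.Tendsto (fun n => (w (φ n)).2.1) Filter.atTop (nhds a.2.1) :=
    ((continuous_fst.comp continuous_snd).tendsto a).comp hconv
  have c3 : Filter.Tendsto (fun n => (w (φ n)).2.2) Filter.atTop (nhds a.2.2) :=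
    ((continuous_snd.comp continuous_snd).tendsto a).comp hconv
  have cs : Filter.Tendsto (fun n => 1 - 1 / ((φ n : ℝ) + 2)) Filter.atTop (nhds 1) :=
    hlim.comp hφ.tendsto_atTop
  exact ⟨a.1, ha.1, a.2.1, ha.2.1, a.2.2, ha.2.2,
    anti_limit c1 c2 cs (fun n => hs0 _) (fun n => hw1 _),
    anti_limit c2 c3 cs (fun n => hs0 _) (fun n => hw2 _),
    anti_limit c3 c1 cs (fun n => hs0 _) (fun n => hw3 _)⟩

end Pool.Agent.Lib.MP_825ff6_co.Pl
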