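import Mathlib

/-!
JOB Const. A lemma on one concave and one convex function.

Proof in words. Write `h t = r t + g t`. With `m = (a + c) / 2`, `d = (a - c) / 2` the hypothesis reads
(*) `r (m + d) - r m ≤ g (m - d) - g m` whenever `m - d, m + d ∈ (p, q)` (`d` of any sign).
Adding `g (m + d) - g m`: `h (m + d) - h m ≤ g (m + d) + g (m - d) - 2 g m =: S m d` (second difference, `≥ 0`).
Applying (*) at the midpoint `m + d` with `- d` (needs `m, m + 2 d ∈ (p, q)`): `r m - r (m + d) ≤ g (m + 2 d) - g (m + d)`, so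
`h m - h (m + d) ≤ S (m + d) d`. Take `x < y` in `(p, q)`, `N` large, `d = (y - x) / N` with `x - d, y + d ∈ (p, q)`, and sum over
`m = x + i d`, `i < N`: the second differences telescope,
`h y - h x ≤ ∑ i < N, S (x + i d) d = (g y - g (y - d)) - (g x - g (x - d))` and
`h x - h y ≤ ∑ i < N, S (x + (i+1) d) d = (g (y + d) - g y) - (g (x + d) - g x)`.
As `N → ∞` both right hand sides tend to `0` because `g` is continuous on the open interval `(p, q)` (`ConvexOn.continuousOn`).
Hence `h x = h y`. (If `(p, q)` is empty take any constant.)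
-/

set_option autoImplicit false

namespace Pool.Agent.Lib.MP_825ff6_co.Pl

open Set

private theorem const_tel (F E : ℕ → ℝ) (N : ℕ)
    (h : ∀ i < N, F (i + 1) - F i ≤ E (i + 1) - E i) : F N - F 0 ≤ E N - E 0 := by
  rw [← Finset.sum_range_sub F N, ← Finset.sum_range_sub E N]
  exact Finset.sum_le_sum fun i hi => h i (Finset.mem_range.1 hi)

private theorem const_key {p q : ℝ} {r g : ℝ → ℝ}
    (h : ∀ a ∈ Ioo p q, ∀ c ∈ Ioo p q, r a - g c ≤ r ((a + c) / 2) - g ((a + c) / 2))
    {x y d : ℝ} (N : ℕ) (hd : 0 < d) (hN : x + N * d = y) (h1 : p < x - d) (h2 : y + d < q) :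
    (r y + g y) - (r x + g x) ≤ (g y - g (y - d)) - (g x - g (x - d)) ∧
    (r x + g x) - (r y + g y) ≤ (g (y + d) - g y) - (g (x + d) - g x) := by
  have hmem : ∀ s : ℝ, -1 ≤ s → s ≤ N + 1 → x + s * d ∈ Ioo p q := by
    intro s hs hs'
    constructor
    · nlinarith
    · nlinarith
  constructor
  · have hsum := const_tel (fun j : ℕ => r (x + j * d) + g (x + j * d))
        (fun j : ℕ => g (x + j * d) - g (x + (j - 1) * d)) N (by
      intro i hi
      have hi' : (i : ℝ) + 1 ≤ N := by
        exact_mod_cast Nat.succ_le_of_lt hi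
      have hi0 : (0 : ℝ) ≤ i := Nat.cast_nonneg i
      have h3 := h (x + (i + 1) * d) (hmem _ (by linarith) (by linarith))
        (x + (i - 1) * d) (hmem _ (by linarith) (by linarith))
      have e : (x + ((i : ℝ) + 1) * d + (x + (i - 1) * d)) / 2 = x + i * d := by ring
      rw [e] at h3
      push_cast
      have e2 : x + ((i : ℝ) + 1 - 1) * d = x + i * d := by ring
      rw [e2]
      linarith)
    have e1 : x + ((N : ℝ) - 1) * d = y - d := by rw [← hN]; ring
    have e2 : x + ((0 : ℕ) : ℝ) * d = x := by push_cast; ring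
    have e3 : x + (((0 : ℕ) : ℝ) - 1) * d = x - d := by push_cast; ring
    rw [hN, e1, e2, e3] at hsum
    linarith
  · have hsum := const_tel (fun j : ℕ => -(r (x + j * d) + g (x + j * d)))
        (fun j : ℕ => g (x + (j + 1) * d) - g (x + j * d)) N (by
      intro i hi
      have hi' : (i : ℝ) + 1 ≤ N := by
        exact_mod_cast Nat.succ_le_of_lt hi
      have hi0 : (0 : ℝ) ≤ i := Nat.cast_nonneg i
      have h3 := h (x + i * d) (hmem _ (by linarith) (by linarith))
        (x + (i + 2) * d) (hmem _ (by linarith) (by linarith))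
      have e : (x + (i : ℝ) * d + (x + (i + 2) * d)) / 2 = x + (i + 1) * d := by ring
      rw [e] at h3
      push_cast
      have e2 : x + ((i : ℝ) + 1 + 1) * d = x + (i + 2) * d := by ring
      rw [e2]
      linarith)
    have e1 : x + ((N : ℝ) + 1) * d = y + d := by rw [← hN]; ring
    have e2 : x + ((0 : ℕ) : ℝ) * d = x := by push_cast; ring
    have e3 : x + (((0 : ℕ) : ℝ) + 1) * d = x + d := by push_cast; ring
    rw [hN, e1, e2, e3] at hsum
    linarith

theorem const_of_mid {p q : ℝ} {r g : ℝ → ℝ} (hg : ConvexOn ℝ (Ioo p q) g)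
    (h : ∀ a ∈ Ioo p q, ∀ c ∈ Ioo p q, r a - g c ≤ r ((a + c) / 2) - g ((a + c) / 2)) :
    ∃ k : ℝ, ∀ t ∈ Ioo p q, r t + g t = k := by
  have hcont : ∀ t ∈ Ioo p q, ContinuousAt g t := fun t ht =>
    (hg.continuousOn isOpen_Ioo).continuousAt (Ioo_mem_nhds ht.1 ht.2)
  have key : ∀ x ∈ Ioo p q, ∀ y ∈ Ioo p q, x < y → r x + g x = r y + g y := by
    intro x hx y hy hxy
    have hd0 : Filter.Tendsto (fun N : ℕ => (y - x) / ((N : ℝ) + 1)) Filter.atTop (nhds 0) := by
      have h3 := (tendsto_one_div_add_atTop_nhds_zero_nat (𝕜 := ℝ)).const_mul (y - x)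
      rw [mul_zero] at h3
      refine h3.congr fun N => ?_
      ring
    have hev : ∀ᶠ N : ℕ in Filter.atTop, p < x - (y - x) / ((N : ℝ) + 1) ∧
        y + (y - x) / ((N : ℝ) + 1) < q := by
      have h3 : ∀ᶠ N : ℕ in Filter.atTop, (y - x) / ((N : ℝ) + 1) < x - p :=
        hd0.eventually_lt_const (by linarith [hx.1])
      have h4 : ∀ᶠ N : ℕ in Filter.atTop, (y - x) / ((N : ℝ) + 1) < q - y :=
        hd0.eventually_lt_const (by linarith [hy.2])
      filter_upwards [h3, h4] with N h5 h6
      exact ⟨by linarith, by linarith⟩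
    have hk : ∀ᶠ N : ℕ in Filter.atTop,
        ((r y + g y) - (r x + g x) ≤ (g y - g (y - (y - x) / ((N : ℝ) + 1))) -
          (g x - g (x - (y - x) / ((N : ℝ) + 1)))) ∧
        ((r x + g x) - (r y + g y) ≤ (g (y + (y - x) / ((N : ℝ) + 1)) - g y) -
          (g (x + (y - x) / ((N : ℝ) + 1)) - g x)) := by
      filter_upwards [hev] with N hN
      have hpos : (0 : ℝ) < (N : ℝ) + 1 := by positivity
      refine const_key h (N + 1) (div_pos (by linarith) hpos) ?_ hN.1 hN.2
      push_cast
      field_simp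
      ring
    have hlim : ∀ t ∈ Ioo p q, Filter.Tendsto
        (fun N : ℕ => g (t - (y - x) / ((N : ℝ) + 1))) Filter.atTop (nhds (g t)) := by
      intro t ht
      have h3 : Filter.Tendsto (fun N : ℕ => t - (y - x) / ((N : ℝ) + 1)) Filter.atTop
          (nhds t) := by
        have h4 := hd0.const_sub t
        rwa [sub_zero] at h4
      exact (hcont t ht).tendsto.comp h3
    have hlim' : ∀ t ∈ Ioo p q, Filter.Tendsto
        (fun N : ℕ => g (t + (y - x) / ((N : ℝ) + 1))) Filter.atTop (nhds (g t)) := by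
      intro t ht
      have h3 : Filter.Tendsto (fun N : ℕ => t + (y - x) / ((N : ℝ) + 1)) Filter.atTop
          (nhds t) := by
        have h4 := hd0.const_add t
        rwa [add_zero] at h4
      exact (hcont t ht).tendsto.comp h3
    have hA : (r y + g y) - (r x + g x) ≤ 0 := by
      have h3 := ((hlim y hy).const_sub (g y)).sub ((hlim x hx).const_sub (g x))
      rw [sub_self, sub_self, sub_zero] at h3
      exact ge_of_tendsto h3 (hk.mono fun N hN => hN.1)
    have hB : (r x + g x) - (r y + g y) ≤ 0 := by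
      have h3 := ((hlim' y hy).sub_const (g y)).sub ((hlim' x hx).sub_const (g x))
      rw [sub_self, sub_self, sub_zero] at h3
      exact ge_of_tendsto h3 (hk.mono fun N hN => hN.2)
    linarith
  by_cases hne : (Ioo p q).Nonempty
  · obtain ⟨t₀, ht₀⟩ := hne
    refine ⟨r t₀ + g t₀, fun t ht => ?_⟩
    rcases lt_trichotomy t t₀ with h3 | h3 | h3
    · exact key t ht t₀ ht₀ h3
    · rw [h3]
    · exact (key t₀ ht₀ t ht h3).symm
  · exact ⟨0, fun t ht => absurd ⟨t, ht⟩ hne⟩

end Pool.Agent.Lib.MP_825ff6_co.Pl
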