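import Mathlib

/-!
JOB Five. Six points of the hexagon cannot be pairwise separated.

Proof in words. For `z = (x, y)` put `z₁ = x`, `z₂ = y`, `z₃ = -(l₁ x + l₂ y) / l₃`, so `l₁ z₁ + l₂ z₂ + l₃ z₃ = 0` and the hexagon
`H` is `|z_k| ≤ 1`, `k = 1, 2, 3`; separated means `|z_k - w_k| > 1` for some `k`. Sign patterns in cyclic order:
`s₁ = (+,-,-)`, `s₂ = (+,+,-)`, `s₃ = (-,+,-)`, `s₄ = (-,+,+)`, `s₅ = (-,-,+)`, `s₆ = (+,-,+)`. Every `z ∈ H` lies in one of the six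
closed sets `A_j = {signs of z weakly s_j}` (the patterns `(+,+,+)`, `(-,-,-)` only for `z = 0`, as all `l_k > 0`). Two points of the
same `A_j` differ by at most `1` in every coordinate. Suppose `S.card ≥ 6`, take six points of `S`; they lie in six different
`A_j` (pigeonhole: a function from at least six points to `Fin 6` which is injective on them), say `q_j ∈ A_j`. Consecutive patterns
differ in one coordinate only, in the others the difference is at most `1`, so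
`q₂.2 - q₁.2 > 1`, `q₂.1 - q₃.1 > 1`, `q₄.3 - q₃.3 > 1`, `q₄.2 - q₅.2 > 1`, `q₆.1 - q₅.1 > 1`, `q₆.3 - q₁.3 > 1` (`.k` = k-th
coordinate). Multiply by `l₂, l₁, l₃, l₂, l₁, l₃` and add: left side `> 2 (l₁ + l₂ + l₃)`. Grouped by points it equals
`l₁ q₁.1 + (-l₃ q₂.3) + l₂ q₃.2 + (-l₁ q₄.1) + l₃ q₅.3 + (-l₂ q₆.2)` (use `l₁ z₁ + l₂ z₂ + l₃ z₃ = 0`), which is at most
`2 (l₁ + l₂ + l₃)`. Contradiction.
-/

set_option autoImplicit false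

namespace Pool.Agent.Lib.MP_825ff6_co.Pl

/-- the class of a point: which of the six closed sectors contains it -/
private noncomputable def five_c (l₁ l₂ : ℝ) (z : ℝ × ℝ) : Fin 6 :=
  if 0 ≤ z.1 then (if 0 ≤ z.2 then 1 else if 0 ≤ l₁ * z.1 + l₂ * z.2 then 0 else 5)
  else (if 0 ≤ z.2 then (if 0 ≤ l₁ * z.1 + l₂ * z.2 then 2 else 3) else 4)

private theorem five_0 {l₁ l₂ : ℝ} {z : ℝ × ℝ} (h : five_c l₁ l₂ z = 0) :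
    0 ≤ z.1 ∧ z.2 ≤ 0 ∧ 0 ≤ l₁ * z.1 + l₂ * z.2 := by
  unfold five_c at h
  split_ifs at h with a b c d e
  all_goals first | exact absurd h (by decide) | exact ⟨a, (not_le.1 b).le, c⟩

private theorem five_1 {l₁ l₂ : ℝ} (h₁ : 0 < l₁) (h₂ : 0 < l₂) {z : ℝ × ℝ} (h : five_c l₁ l₂ z = 1) :
    0 ≤ z.1 ∧ 0 ≤ z.2 ∧ 0 ≤ l₁ * z.1 + l₂ * z.2 := by
  unfold five_c at h
  split_ifs at h with a b c d e
  all_goals first | exact absurd h (by decide) |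
    exact ⟨a, b, add_nonneg (mul_nonneg h₁.le a) (mul_nonneg h₂.le b)⟩

private theorem five_2 {l₁ l₂ : ℝ} {z : ℝ × ℝ} (h : five_c l₁ l₂ z = 2) :
    z.1 ≤ 0 ∧ 0 ≤ z.2 ∧ 0 ≤ l₁ * z.1 + l₂ * z.2 := by
  unfold five_c at h
  split_ifs at h with a b c d e
  all_goals first | exact absurd h (by decide) | exact ⟨(not_le.1 a).le, d, e⟩

private theorem five_3 {l₁ l₂ : ℝ} {z : ℝ × ℝ} (h : five_c l₁ l₂ z = 3) :
    z.1 ≤ 0 ∧ 0 ≤ z.2 ∧ l₁ * z.1 + l₂ * z.2 ≤ 0 := by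
  unfold five_c at h
  split_ifs at h with a b c d e
  all_goals first | exact absurd h (by decide) | exact ⟨(not_le.1 a).le, d, (not_le.1 e).le⟩

private theorem five_4 {l₁ l₂ : ℝ} (h₁ : 0 < l₁) (h₂ : 0 < l₂) {z : ℝ × ℝ} (h : five_c l₁ l₂ z = 4) :
    z.1 ≤ 0 ∧ z.2 ≤ 0 ∧ l₁ * z.1 + l₂ * z.2 ≤ 0 := by
  unfold five_c at h
  split_ifs at h with a b c d e
  all_goals first | exact absurd h (by decide) |
    exact ⟨(not_le.1 a).le, (not_le.1 d).le, add_nonpos (mul_nonpos_of_nonneg_of_nonpos h₁.le (not_le.1 a).le)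
      (mul_nonpos_of_nonneg_of_nonpos h₂.le (not_le.1 d).le)⟩

private theorem five_5 {l₁ l₂ : ℝ} {z : ℝ × ℝ} (h : five_c l₁ l₂ z = 5) :
    0 ≤ z.1 ∧ z.2 ≤ 0 ∧ l₁ * z.1 + l₂ * z.2 ≤ 0 := by
  unfold five_c at h
  split_ifs at h with a b c d e
  all_goals first | exact absurd h (by decide) | exact ⟨a, (not_le.1 b).le, (not_le.1 c).le⟩

/-- the separation of two points, with the bounds spelled out -/
private theorem five_sep {l₁ l₂ l₃ : ℝ} {S : Finset (ℝ × ℝ)}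
    (hd : ∀ z ∈ S, ∀ w ∈ S, z ≠ w → ¬ (|z.1 - w.1| ≤ 1 ∧ |z.2 - w.2| ≤ 1 ∧
      |l₁ * (z.1 - w.1) + l₂ * (z.2 - w.2)| ≤ l₃)) {z w : ℝ × ℝ} (hz : z ∈ S) (hw : w ∈ S) (hne : z ≠ w)
    (e1 : z.1 - w.1 ≤ 1) (e2 : w.1 - z.1 ≤ 1) (e3 : z.2 - w.2 ≤ 1) (e4 : w.2 - z.2 ≤ 1)
    (e5 : (l₁ * z.1 + l₂ * z.2) - (l₁ * w.1 + l₂ * w.2) ≤ l₃)
    (e6 : (l₁ * w.1 + l₂ * w.2) - (l₁ * z.1 + l₂ * z.2) ≤ l₃) : False :=
  hd z hz w hw hne ⟨abs_le.2 ⟨by linarith, by linarith⟩, abs_le.2 ⟨by linarith, by linarith⟩,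
    abs_le.2 ⟨by linarith, by linarith⟩⟩

theorem card_le_five {l₁ l₂ l₃ : ℝ} (h₁ : 0 < l₁) (h₂ : 0 < l₂) (h₃ : 0 < l₃)
    (S : Finset (ℝ × ℝ))
    (hS : ∀ z ∈ S, |z.1| ≤ 1 ∧ |z.2| ≤ 1 ∧ |l₁ * z.1 + l₂ * z.2| ≤ l₃)
    (hd : ∀ z ∈ S, ∀ w ∈ S, z ≠ w → ¬ (|z.1 - w.1| ≤ 1 ∧ |z.2 - w.2| ≤ 1 ∧
      |l₁ * (z.1 - w.1) + l₂ * (z.2 - w.2)| ≤ l₃)) : S.card ≤ 5 := by
  classical
  by_contra hcon
  have hcard : 6 ≤ S.card := by omega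
  have bd : ∀ z ∈ S, (-1 ≤ z.1 ∧ z.1 ≤ 1) ∧ (-1 ≤ z.2 ∧ z.2 ≤ 1) ∧
      (-l₃ ≤ l₁ * z.1 + l₂ * z.2 ∧ l₁ * z.1 + l₂ * z.2 ≤ l₃) := fun z hz =>
    ⟨abs_le.1 (hS z hz).1, abs_le.1 (hS z hz).2.1, abs_le.1 (hS z hz).2.2⟩
  -- signs in the classes
  have sg : ∀ z w : ℝ × ℝ, five_c l₁ l₂ z = five_c l₁ l₂ w →
      ((0 ≤ z.1 ∧ 0 ≤ w.1) ∨ (z.1 ≤ 0 ∧ w.1 ≤ 0)) ∧ ((0 ≤ z.2 ∧ 0 ≤ w.2) ∨ (z.2 ≤ 0 ∧ w.2 ≤ 0)) ∧
      ((0 ≤ l₁ * z.1 + l₂ * z.2 ∧ 0 ≤ l₁ * w.1 + l₂ * w.2) ∨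
        (l₁ * z.1 + l₂ * z.2 ≤ 0 ∧ l₁ * w.1 + l₂ * w.2 ≤ 0)) := by
    intro z w hzw
    generalize hj : five_c l₁ l₂ w = j at hzw
    fin_cases j
    · obtain ⟨a, b, c⟩ := five_0 hzw
      obtain ⟨a', b', c'⟩ := five_0 hj
      exact ⟨Or.inl ⟨a, a'⟩, Or.inr ⟨b, b'⟩, Or.inl ⟨c, c'⟩⟩
    · obtain ⟨a, b, c⟩ := five_1 h₁ h₂ hzw
      obtain ⟨a', b', c'⟩ := five_1 h₁ h₂ hj
      exact ⟨Or.inl ⟨a, a'⟩, Or.inl ⟨b, b'⟩, Or.inl ⟨c, c'⟩⟩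
    · obtain ⟨a, b, c⟩ := five_2 hzw
      obtain ⟨a', b', c'⟩ := five_2 hj
      exact ⟨Or.inr ⟨a, a'⟩, Or.inl ⟨b, b'⟩, Or.inl ⟨c, c'⟩⟩
    · obtain ⟨a, b, c⟩ := five_3 hzw
      obtain ⟨a', b', c'⟩ := five_3 hj
      exact ⟨Or.inr ⟨a, a'⟩, Or.inl ⟨b, b'⟩, Or.inr ⟨c, c'⟩⟩
    · obtain ⟨a, b, c⟩ := five_4 h₁ h₂ hzw
      obtain ⟨a', b', c'⟩ := five_4 h₁ h₂ hj
      exact ⟨Or.inr ⟨a, a'⟩, Or.inr ⟨b, b'⟩, Or.inr ⟨c, c'⟩⟩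
    · obtain ⟨a, b, c⟩ := five_5 hzw
      obtain ⟨a', b', c'⟩ := five_5 hj
      exact ⟨Or.inl ⟨a, a'⟩, Or.inr ⟨b, b'⟩, Or.inr ⟨c, c'⟩⟩
  have hinj : Set.InjOn (five_c l₁ l₂) S := by
    intro z hz w hw hzw
    by_contra hne
    obtain ⟨⟨b1, b2⟩, ⟨b3, b4⟩, b5, b6⟩ := bd z hz
    obtain ⟨⟨c1, c2⟩, ⟨c3, c4⟩, c5, c6⟩ := bd w hw
    obtain ⟨s1, s2, s3⟩ := sg z w hzw
    refine five_sep hd hz hw hne ?_ ?_ ?_ ?_ ?_ ?_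
    · rcases s1 with ⟨x, y⟩ | ⟨x, y⟩ <;> linarith
    · rcases s1 with ⟨x, y⟩ | ⟨x, y⟩ <;> linarith
    · rcases s2 with ⟨x, y⟩ | ⟨x, y⟩ <;> linarith
    · rcases s2 with ⟨x, y⟩ | ⟨x, y⟩ <;> linarith
    · rcases s3 with ⟨x, y⟩ | ⟨x, y⟩ <;> linarith
    · rcases s3 with ⟨x, y⟩ | ⟨x, y⟩ <;> linarith
  have himg : S.image (five_c l₁ l₂) = Finset.univ := by
    refine Finset.eq_univ_of_card _ (le_antisymm (Finset.card_le_univ _) ?_)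
    rw [Finset.card_image_of_injOn hinj]
    simpa using hcard
  have hex : ∀ j : Fin 6, ∃ q ∈ S, five_c l₁ l₂ q = j := by
    intro j
    have : j ∈ S.image (five_c l₁ l₂) := by rw [himg]; exact Finset.mem_univ j
    exact Finset.mem_image.1 this
  obtain ⟨q1, m1, k1⟩ := hex 0
  obtain ⟨q2, m2, k2⟩ := hex 1
  obtain ⟨q3, m3, k3⟩ := hex 2
  obtain ⟨q4, m4, k4⟩ := hex 3
  obtain ⟨q5, m5, k5⟩ := hex 4
  obtain ⟨q6, m6, k6⟩ := hex 5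
  have ne : ∀ {z w : ℝ × ℝ} {i j : Fin 6}, five_c l₁ l₂ z = i → five_c l₁ l₂ w = j → i ≠ j → z ≠ w := by
    intro z w i j hz hw hij hzw
    exact hij (by rw [← hz, ← hw, hzw])
  have n12 : q2 ≠ q1 := ne k2 k1 (by decide)
  have n23 : q2 ≠ q3 := ne k2 k3 (by decide)
  have n34 : q3 ≠ q4 := ne k3 k4 (by decide)
  have n45 : q4 ≠ q5 := ne k4 k5 (by decide)
  have n56 : q6 ≠ q5 := ne k6 k5 (by decide)
  have n61 : q1 ≠ q6 := ne k1 k6 (by decide)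
  obtain ⟨⟨b11, b12⟩, ⟨b13, b14⟩, b15, b16⟩ := bd q1 m1
  obtain ⟨⟨b21, b22⟩, ⟨b23, b24⟩, b25, b26⟩ := bd q2 m2
  obtain ⟨⟨b31, b32⟩, ⟨b33, b34⟩, b35, b36⟩ := bd q3 m3
  obtain ⟨⟨b41, b42⟩, ⟨b43, b44⟩, b45, b46⟩ := bd q4 m4
  obtain ⟨⟨b51, b52⟩, ⟨b53, b54⟩, b55, b56⟩ := bd q5 m5
  obtain ⟨⟨b61, b62⟩, ⟨b63, b64⟩, b65, b66⟩ := bd q6 m6
  obtain ⟨a11, a12, a13⟩ := five_0 k1
  obtain ⟨a21, a22, a23⟩ := five_1 h₁ h₂ k2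
  obtain ⟨a31, a32, a33⟩ := five_2 k3
  obtain ⟨a41, a42, a43⟩ := five_3 k4
  obtain ⟨a51, a52, a53⟩ := five_4 h₁ h₂ k5
  obtain ⟨a61, a62, a63⟩ := five_5 k6
  have d1 : 1 < q2.2 - q1.2 := by
    by_contra hc
    exact five_sep hd m2 m1 n12 (by linarith) (by linarith) (by linarith) (by linarith) (by linarith) (by linarith)
  have d2 : 1 < q2.1 - q3.1 := by
    by_contra hc
    exact five_sep hd m2 m3 n23 (by linarith) (by linarith) (by linarith) (by linarith) (by linarith) (by linarith)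
  have d3 : l₃ < (l₁ * q3.1 + l₂ * q3.2) - (l₁ * q4.1 + l₂ * q4.2) := by
    by_contra hc
    exact five_sep hd m3 m4 n34 (by linarith) (by linarith) (by linarith) (by linarith) (by linarith) (by linarith)
  have d4 : 1 < q4.2 - q5.2 := by
    by_contra hc
    exact five_sep hd m4 m5 n45 (by linarith) (by linarith) (by linarith) (by linarith) (by linarith) (by linarith)
  have d5 : 1 < q6.1 - q5.1 := by
    by_contra hc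
    exact five_sep hd m6 m5 n56 (by linarith) (by linarith) (by linarith) (by linarith) (by linarith) (by linarith)
  have d6 : l₃ < (l₁ * q1.1 + l₂ * q1.2) - (l₁ * q6.1 + l₂ * q6.2) := by
    by_contra hc
    exact five_sep hd m1 m6 n61 (by linarith) (by linarith) (by linarith) (by linarith) (by linarith) (by linarith)
  have e1 := mul_lt_mul_of_pos_left d1 h₂
  have e2 := mul_lt_mul_of_pos_left d2 h₁
  have e4 := mul_lt_mul_of_pos_left d4 h₂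
  have e5 := mul_lt_mul_of_pos_left d5 h₁
  have g1 := mul_le_mul_of_nonneg_left b12 h₁.le
  have g3 := mul_le_mul_of_nonneg_left b34 h₂.le
  have g4 := mul_le_mul_of_nonneg_left b41 h₁.le
  have g6 := mul_le_mul_of_nonneg_left b63 h₂.le
  linarith

end Pool.Agent.Lib.MP_825ff6_co.Pl
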