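import Mathlib

/-!
JOB Funct. A supporting functional.

Proof in words. Put `c = (1/2) (a - b)`. `c ∈ K` (convexity and symmetry), `c ∉ interior K`, and `interior K` is convex and open:
`geometric_hahn_banach_open_point` gives a continuous linear `f` with `f z < f c` for `z ∈ interior K`. `0 ∈ interior K`
(if `z ∈ interior K` then `-z ∈ interior K` by symmetry, and `0 = (z + (-z)) / 2` is in the convex set `interior K`), so
`f c > 0`. Every `z ∈ K` is a limit of interior points (`Convex.closure_interior_eq_closure_of_nonempty_interior` or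
the segment argument), so `f z ≤ f c` on `K`. Let `u = (f c)⁻¹ f`. Then `u ≤ 1` on `K`, by symmetry `|u| ≤ 1` on `K`;
`u c = 1` means `u a - u b = 2`, with `u a ≤ 1`, `u b ≥ -1`: so `u a = 1`, `u b = -1`.
-/

set_option autoImplicit false

namespace Pool.Agent.Lib.MP_825ff6_co.Pl

open Set

theorem exists_functional {K : Set (ℝ × ℝ)} (hc : Convex ℝ K) (hi : (interior K).Nonempty)
    (hs : ∀ z ∈ K, -z ∈ K) {a b : ℝ × ℝ} (ha : a ∈ K) (hb : b ∈ K)
    (hab : (1 / 2 : ℝ) • (a - b) ∉ interior K) :
    ∃ u : (ℝ × ℝ) →ₗ[ℝ] ℝ, (∀ z ∈ K, |u z| ≤ 1) ∧ u a = 1 ∧ u b = -1 := by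
  set c := (1 / 2 : ℝ) • (a - b) with hcdef
  obtain ⟨f, hf⟩ := geometric_hahn_banach_open_point hc.interior isOpen_interior hab
  have hint : ∀ z ∈ interior K, -z ∈ interior K := by
    intro z hz
    have hneg : (Homeomorph.neg (ℝ × ℝ)) ⁻¹' K = K := by
      ext w
      constructor
      · intro hw
        have := hs _ hw
        simpa using this
      · exact fun hw => hs _ hw
    have h1 := (Homeomorph.neg (ℝ × ℝ)).preimage_interior K
    rw [hneg] at h1
    rw [← h1] at hz
    exact hz
  have h0 : (0 : ℝ × ℝ) ∈ interior K := by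
    obtain ⟨z, hz⟩ := hi
    have h1 := hc.interior hz (hint z hz) (a := 1 / 2) (b := 1 / 2) (by norm_num) (by norm_num)
      (by norm_num)
    have h2 : (1 / 2 : ℝ) • z + (1 / 2 : ℝ) • (-z) = 0 := by
      rw [smul_neg]
      exact add_neg_cancel _
    rwa [h2] at h1
  have hfc : 0 < f c := by
    have := hf 0 h0
    rwa [map_zero] at this
  have hfK : ∀ z ∈ K, f z ≤ f c := by
    intro z hz
    have hcl : z ∈ closure (interior K) := by
      rw [hc.closure_interior_eq_closure_of_nonempty_interior hi]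
      exact subset_closure hz
    have hclosed : IsClosed {w : ℝ × ℝ | f w ≤ f c} := isClosed_le f.continuous continuous_const
    exact closure_minimal (fun w hw => (hf w hw).le) hclosed hcl
  refine ⟨(f c)⁻¹ • (f : (ℝ × ℝ) →ₗ[ℝ] ℝ), ?_, ?_, ?_⟩
  · intro z hz
    have h1 := hfK z hz
    have h2 := hfK _ (hs z hz)
    rw [map_neg] at h2
    simp only [LinearMap.smul_apply, ContinuousLinearMap.coe_coe, smul_eq_mul]
    rw [abs_mul, abs_inv, abs_of_pos hfc, inv_mul_le_iff₀ hfc, mul_one]
    exact abs_le.2 ⟨by linarith, h1⟩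
  all_goals
    have h1 := hfK a ha
    have h2 := hfK _ (hs b hb)
    rw [map_neg] at h2
    have h3 : f c = (1 / 2) * (f a - f b) := by
      rw [hcdef, map_smul, map_sub, smul_eq_mul]
    simp only [LinearMap.smul_apply, ContinuousLinearMap.coe_coe, smul_eq_mul]
  · rw [inv_mul_eq_iff_eq_mul₀ hfc.ne']
    linarith
  · rw [inv_mul_eq_iff_eq_mul₀ hfc.ne']
    linarith

end Pool.Agent.Lib.MP_825ff6_co.Pl
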