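import Mathlib

/-!
JOB Normal. Normal form: `K` is a parallelogram or a hexagon `|x| ≤ 1, |y| ≤ 1, |l₁ x + l₂ y| ≤ l₃`.

Proof in words. The three functionals live in a two-dimensional space: there is `(l₁, l₂, l₃) ≠ 0` with
(R) `l₁ u₁ + l₂ u₂ + l₃ u₃ = 0` (for example take the cross product of the rows of the 2 by 3 matrix of the `u_k`, or
`Module.finrank` and linear dependence; if all `u_k` were zero, but `u₁ a₂ = 1`). Evaluate (R) at `a₁, a₂, a₃`: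
`l₁ u₁(a₁) = l₂ - l₃`, `l₂ u₂(a₂) = l₃ - l₁`, `l₃ u₃(a₃) = l₁ - l₂`, so, as `|u_k| ≤ 1` on `K`,
`|l₂ - l₃| ≤ |l₁|`, `|l₃ - l₁| ≤ |l₂|`, `|l₁ - l₂| ≤ |l₃|`; by cases all `l_k` have the same sign (weakly); replacing `l` by `-l`
all `l_k ≥ 0`, and then `l_i ≤ l_j + l_k`. All cases are cyclic images of one another
(`(a₁,a₂,a₃; u₁,u₂,u₃) → (a₂,a₃,a₁; u₂,u₃,u₁)`).
Degenerate case A: some `l_k = 0`, say `l₃ = 0`; then `l₁ = l₂ > 0` and `u₂ = - u₁`, so `u₁(a₁) = 1`, `u₁(a₂) = 1`, `u₃(a₁) = 1`,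
`u₃(a₂) = -1`: `Φ = (u₁, u₃)` is injective (its values at `a₁, a₂` are `(1,1), (1,-1)`), `K ⊆ {|Φ.1| ≤ 1, |Φ.2| ≤ 1}`, and `K`
contains the four points `±a₁, ±a₂` with `Φ`-values `±(1,1), ±(1,-1)`, hence the whole parallelogram (convexity).
Degenerate case B: all `l_k > 0` and some equality, say `l₁ = l₂ + l₃`; then `u₂(a₂) = -1`, `u₃(a₃) = 1`; `Φ = (u₂, u₃)` has values
`(-1, 1)` at `a₁`, `(-1, -1)` at `a₂`, so again `K = {|Φ.1| ≤ 1, |Φ.2| ≤ 1}`.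
Main case: `l_k > 0`, strict triangle inequalities. `Φ = (u₁, u₂)`: injective, because its values at `a₂, a₃` are
`(1, (l₃ - l₁)/l₂)` and `(-1, 1)` with `(l₃ - l₁)/l₂ > -1`. `K ⊆ H` where `H` = the hexagon (`|u₃| ≤ 1` is `|l₁ u₁ + l₂ u₂| ≤ l₃`).
Conversely let `z` with `|u_k(z)| ≤ 1`, and let `M = max |u_k(z)| ≤ 1`; by the cyclic symmetry and `z ↦ -z` (K is symmetric) let
`M = u₁(z)`. Then `z = α a₂ + β (-a₃)` with `α = (u₂(z) + M) / (u₂(a₂) + 1)`, `β = M - α`: check `u₁`: `α + β = M`;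
`u₂`: `α u₂(a₂) - β = u₂(z)`. `α ≥ 0` as `u₂(z) ≥ -M`; `β ≥ 0` is `u₂(z) ≤ M u₂(a₂) = M (l₃ - l₁)/l₂`, i.e.
`l₁ M + l₂ u₂(z) ≤ l₃ M`, i.e. `- u₃(z) ≤ M`. So `z` is a convex combination of `a₂, -a₃, 0 ∈ K` (`α + β = M ≤ 1`).
(`0 ∈ K` by symmetry and convexity.)
-/

set_option autoImplicit false

namespace Pool.Agent.Lib.MP_825ff6_co.Pl

open Set

private lemma conv_two {K : Set (ℝ × ℝ)} (hc : Convex ℝ K) (hs : ∀ z ∈ K, -z ∈ K)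
    {b c : ℝ × ℝ} (hb : b ∈ K) (hc' : c ∈ K) {α β : ℝ} (h : |α| + |β| ≤ 1) :
    α • b + β • c ∈ K := by
  have h0 : (0 : ℝ × ℝ) ∈ K := by
    have := hc hb (hs b hb) (by norm_num : (0 : ℝ) ≤ 1 / 2) (by norm_num : (0 : ℝ) ≤ 1 / 2)
      (by norm_num)
    simpa using this
  -- sign points
  have hsb : ∃ b' ∈ K, α • b = |α| • b' := by
    rcases le_total 0 α with ha | ha
    · exact ⟨b, hb, by rw [abs_of_nonneg ha]⟩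
    · exact ⟨-b, hs b hb, by rw [abs_of_nonpos ha]; simp⟩
  have hsc : ∃ c' ∈ K, β • c = |β| • c' := by
    rcases le_total 0 β with ha | ha
    · exact ⟨c, hc', by rw [abs_of_nonneg ha]⟩
    · exact ⟨-c, hs c hc', by rw [abs_of_nonpos ha]; simp⟩
  obtain ⟨b', hb', e1⟩ := hsb
  obtain ⟨c', hc'', e2⟩ := hsc
  rw [e1, e2]
  have key := hc.sum_mem (t := (Finset.univ : Finset (Fin 3)))
    (w := ![|α|, |β|, 1 - |α| - |β|]) (z := ![b', c', 0]) ?_ ?_ ?_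
  · simpa [Fin.sum_univ_three] using key
  · intro i _
    fin_cases i
    · simp
    · simp
    · simp; linarith
  · simp [Fin.sum_univ_three]
  · intro i _
    fin_cases i
    · simpa using hb'
    · simpa using hc''
    · simpa using h0

private lemma para {K : Set (ℝ × ℝ)} (hc : Convex ℝ K) (hs : ∀ z ∈ K, -z ∈ K)
    {b c : ℝ × ℝ} (hb : b ∈ K) (hc' : c ∈ K) {u v : (ℝ × ℝ) →ₗ[ℝ] ℝ}
    (hu : ∀ z ∈ K, |u z| ≤ 1) (hv : ∀ z ∈ K, |v z| ≤ 1) (h1 : u b = 1) (h2 : v b = 1)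
    (h3 : u c = 1) (h4 : v c = -1) :
    ∃ Φ : (ℝ × ℝ) ≃ₗ[ℝ] (ℝ × ℝ), ∀ z, z ∈ K ↔ |(Φ z).1| ≤ 1 ∧ |(Φ z).2| ≤ 1 := by
  have hsurj : Function.Surjective (u.prod v) := by
    intro y
    refine ⟨((y.1 + y.2) / 2) • b + ((y.1 - y.2) / 2) • c, ?_⟩
    ext
    · simp [h1, h3]
      ring
    · simp [h2, h4]
      ring
  have hinj : Function.Injective (u.prod v) := LinearMap.injective_iff_surjective.2 hsurj
  refine ⟨LinearEquiv.ofBijective (u.prod v) ⟨hinj, hsurj⟩, fun z => ?_⟩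
  change z ∈ K ↔ |u z| ≤ 1 ∧ |v z| ≤ 1
  constructor
  · intro hz
    exact ⟨hu z hz, hv z hz⟩
  · rintro ⟨hz1, hz2⟩
    have hz : z = ((u z + v z) / 2) • b + ((u z - v z) / 2) • c := by
      apply hinj
      ext
      · simp [h1, h3]
        ring
      · simp [h2, h4]
        ring
    rw [hz]
    apply conv_two hc hs hb hc'
    rw [abs_le] at hz1 hz2
    rcases abs_cases ((u z + v z) / 2) with ⟨e1, -⟩ | ⟨e1, -⟩ <;>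
      rcases abs_cases ((u z - v z) / 2) with ⟨e2, -⟩ | ⟨e2, -⟩ <;> rw [e1, e2] <;> linarith

private lemma degen {K : Set (ℝ × ℝ)} (hc : Convex ℝ K) (hs : ∀ z ∈ K, -z ∈ K)
    {a₁ a₂ a₃ : ℝ × ℝ} (ha₁ : a₁ ∈ K) (ha₂ : a₂ ∈ K) (ha₃ : a₃ ∈ K)
    {u₁ u₂ u₃ : (ℝ × ℝ) →ₗ[ℝ] ℝ} (h₂ : ∀ z ∈ K, |u₂ z| ≤ 1)
    (h₃ : ∀ z ∈ K, |u₃ z| ≤ 1) (h12 : u₁ a₂ = 1) (h13 : u₁ a₃ = -1) (h23 : u₂ a₃ = 1)
    (h21 : u₂ a₁ = -1) (h31 : u₃ a₁ = 1) (h32 : u₃ a₂ = -1) {l₁ l₂ l₃ : ℝ}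
    (R : ∀ z, l₁ * u₁ z + l₂ * u₂ z + l₃ * u₃ z = 0) (hl1 : 0 < l₁) (hl2 : 0 ≤ l₂) (_hl3 : 0 ≤ l₃)
    (he : l₁ = l₂ + l₃) :
    ∃ Φ : (ℝ × ℝ) ≃ₗ[ℝ] (ℝ × ℝ), ∀ z, z ∈ K ↔ |(Φ z).1| ≤ 1 ∧ |(Φ z).2| ≤ 1 := by
  rcases hl2.eq_or_lt with h | h
  · have hl3' : 0 < l₃ := by linarith
    have h33 : u₃ a₃ = 1 := by
      have := R a₃
      rw [h13, h23] at this
      have h0 : l₃ * (u₃ a₃ - 1) = 0 := by linarith
      rcases mul_eq_zero.1 h0 with h1 | h1 <;> linarith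
    refine para hc hs ha₃ (hs _ ha₁) h₂ h₃ h23 h33 ?_ ?_
    · rw [map_neg, h21, neg_neg]
    · rw [map_neg, h31]
  · have h22 : u₂ a₂ = -1 := by
      have := R a₂
      rw [h12, h32] at this
      have h0 : l₂ * (u₂ a₂ + 1) = 0 := by linarith
      rcases mul_eq_zero.1 h0 with h1 | h1 <;> linarith
    refine para hc hs (hs _ ha₂) (hs _ ha₁) h₂ h₃ ?_ ?_ ?_ ?_
    · rw [map_neg, h22, neg_neg]
    · rw [map_neg, h32, neg_neg]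
    · rw [map_neg, h21, neg_neg]
    · rw [map_neg, h31]

private lemma mainstep {K : Set (ℝ × ℝ)} (hc : Convex ℝ K) (hs : ∀ z ∈ K, -z ∈ K)
    {a₂ a₃ : ℝ × ℝ} (ha₂ : a₂ ∈ K) (ha₃ : a₃ ∈ K)
    {u₁ u₂ u₃ : (ℝ × ℝ) →ₗ[ℝ] ℝ} (h12 : u₁ a₂ = 1) (h13 : u₁ a₃ = -1) (h23 : u₂ a₃ = 1)
    (h32 : u₃ a₂ = -1) {l₁ l₂ l₃ : ℝ}
    (R : ∀ z, l₁ * u₁ z + l₂ * u₂ z + l₃ * u₃ z = 0) (hl2 : 0 < l₂) (hl3 : 0 < l₃)
    (he : l₁ < l₂ + l₃) (inj : ∀ w, u₁ w = 0 → u₂ w = 0 → u₃ w = 0 → w = 0)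
    {z : ℝ × ℝ} (hz1 : u₁ z ≤ 1) (hz2 : |u₂ z| ≤ u₁ z) (hz3 : |u₃ z| ≤ u₁ z) : z ∈ K := by
  rw [abs_le] at hz2 hz3
  have e2 : l₂ * u₂ a₂ = l₃ - l₁ := by
    have := R a₂
    rw [h12, h32] at this
    linarith
  have hden : 0 < u₂ a₂ + 1 := by
    by_contra hcon
    have : l₂ * (u₂ a₂ + 1) ≤ 0 := mul_nonpos_of_nonneg_of_nonpos hl2.le (not_lt.1 hcon)
    nlinarith
  set α : ℝ := (u₂ z + u₁ z) / (u₂ a₂ + 1) with hα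
  have hα1 : α * (u₂ a₂ + 1) = u₂ z + u₁ z := div_mul_cancel₀ _ hden.ne'
  have hα0 : 0 ≤ α := div_nonneg (by linarith) hden.le
  have hβ0 : 0 ≤ u₁ z - α := by
    by_contra hcon
    have h1 : (u₁ z - α) * (u₂ a₂ + 1) < 0 := mul_neg_of_neg_of_pos (not_le.1 hcon) hden
    have h2 : l₂ * ((u₁ z - α) * (u₂ a₂ + 1)) < 0 := mul_neg_of_pos_of_neg hl2 h1
    have h3 : l₂ * ((u₁ z - α) * (u₂ a₂ + 1)) = u₁ z * (l₂ * u₂ a₂) - l₂ * u₂ z := by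
      have : (u₁ z - α) * (u₂ a₂ + 1) = u₁ z * (u₂ a₂ + 1) - (u₂ z + u₁ z) := by
        rw [← hα1]; ring
      rw [this]; ring
    rw [h3, e2] at h2
    have h4 := R z
    nlinarith
  have hz : z = α • a₂ + (u₁ z - α) • (-a₃) := by
    have hw : z - (α • a₂ + (u₁ z - α) • (-a₃)) = 0 := by
      have e1 : u₁ (z - (α • a₂ + (u₁ z - α) • (-a₃))) = 0 := by
        simp only [map_sub, map_add, map_smul, map_neg, h12, h13, smul_eq_mul]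
        ring
      have e2' : u₂ (z - (α • a₂ + (u₁ z - α) • (-a₃))) = 0 := by
        simp only [map_sub, map_add, map_smul, map_neg, h23, smul_eq_mul]
        linarith
      refine inj _ e1 e2' ?_
      have := R (z - (α • a₂ + (u₁ z - α) • (-a₃)))
      rw [e1, e2'] at this
      have h0 : l₃ * u₃ (z - (α • a₂ + (u₁ z - α) • (-a₃))) = 0 := by linarith
      exact (mul_eq_zero.1 h0).resolve_left hl3.ne'
    exact sub_eq_zero.1 hw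
  rw [hz]
  apply conv_two hc hs ha₂ (hs _ ha₃)
  rw [abs_of_nonneg hα0, abs_of_nonneg hβ0]
  linarith

private lemma core {K : Set (ℝ × ℝ)} (hc : Convex ℝ K) (hs : ∀ z ∈ K, -z ∈ K)
    {a₁ a₂ a₃ : ℝ × ℝ} (ha₁ : a₁ ∈ K) (ha₂ : a₂ ∈ K) (ha₃ : a₃ ∈ K)
    {u₁ u₂ u₃ : (ℝ × ℝ) →ₗ[ℝ] ℝ} (h₁ : ∀ z ∈ K, |u₁ z| ≤ 1) (h₂ : ∀ z ∈ K, |u₂ z| ≤ 1)
    (h₃ : ∀ z ∈ K, |u₃ z| ≤ 1) (h12 : u₁ a₂ = 1) (h13 : u₁ a₃ = -1) (h23 : u₂ a₃ = 1)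
    (h21 : u₂ a₁ = -1) (h31 : u₃ a₁ = 1) (h32 : u₃ a₂ = -1) {l₁ l₂ l₃ : ℝ}
    (R : ∀ z, l₁ * u₁ z + l₂ * u₂ z + l₃ * u₃ z = 0) (hl1 : 0 ≤ l₁) (hl2 : 0 ≤ l₂) (hl3 : 0 ≤ l₃)
    (hne : 0 < l₁ + l₂ + l₃) (t1 : l₁ ≤ l₂ + l₃) (t2 : l₂ ≤ l₁ + l₃) (t3 : l₃ ≤ l₁ + l₂)
    (inj : ∀ w, u₁ w = 0 → u₂ w = 0 → u₃ w = 0 → w = 0) :
    (∃ Φ : (ℝ × ℝ) ≃ₗ[ℝ] (ℝ × ℝ), ∀ z, z ∈ K ↔ |(Φ z).1| ≤ 1 ∧ |(Φ z).2| ≤ 1) ∨
    ∃ (Φ : (ℝ × ℝ) ≃ₗ[ℝ] (ℝ × ℝ)) (l₁ l₂ l₃ : ℝ), 0 < l₁ ∧ 0 < l₂ ∧ 0 < l₃ ∧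
      l₁ < l₂ + l₃ ∧ l₂ < l₁ + l₃ ∧ l₃ < l₁ + l₂ ∧
      ∀ z, z ∈ K ↔ |(Φ z).1| ≤ 1 ∧ |(Φ z).2| ≤ 1 ∧ |l₁ * (Φ z).1 + l₂ * (Φ z).2| ≤ l₃ := by
  rcases t1.eq_or_lt with e | e1
  · left
    exact degen hc hs ha₁ ha₂ ha₃ h₂ h₃ h12 h13 h23 h21 h31 h32 R (by linarith) hl2 hl3 e
  rcases t2.eq_or_lt with e | e2
  · left
    exact degen hc hs ha₂ ha₃ ha₁ h₃ h₁ h23 h21 h31 h32 h12 h13 (l₁ := l₂) (l₂ := l₃) (l₃ := l₁)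
      (fun z => by have := R z; linarith) (by linarith) hl3 hl1 (by linarith)
  rcases t3.eq_or_lt with e | e3
  · left
    exact degen hc hs ha₃ ha₁ ha₂ h₁ h₂ h31 h32 h12 h13 h23 h21 (l₁ := l₃) (l₂ := l₁) (l₃ := l₂)
      (fun z => by have := R z; linarith) (by linarith) hl1 hl2 (by linarith)
  right
  have p1 : 0 < l₁ := by linarith
  have p2 : 0 < l₂ := by linarith
  have p3 : 0 < l₃ := by linarith
  have hinj : Function.Injective (u₁.prod u₂) := by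
    rw [injective_iff_map_eq_zero]
    intro w hw
    have w1 : u₁ w = 0 := by
      have := congrArg Prod.fst hw
      simpa using this
    have w2 : u₂ w = 0 := by
      have := congrArg Prod.snd hw
      simpa using this
    refine inj w w1 w2 ?_
    have := R w
    rw [w1, w2] at this
    have h0 : l₃ * u₃ w = 0 := by linarith
    exact (mul_eq_zero.1 h0).resolve_left p3.ne'
  have hsurj : Function.Surjective (u₁.prod u₂) := LinearMap.injective_iff_surjective.1 hinj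
  refine ⟨LinearEquiv.ofBijective (u₁.prod u₂) ⟨hinj, hsurj⟩, l₁, l₂, l₃, p1, p2, p3, e1, e2, e3,
    fun z => ?_⟩
  change z ∈ K ↔ |u₁ z| ≤ 1 ∧ |u₂ z| ≤ 1 ∧ |l₁ * u₁ z + l₂ * u₂ z| ≤ l₃
  have hR : l₁ * u₁ z + l₂ * u₂ z = -(l₃ * u₃ z) := by
    have := R z
    linarith
  rw [hR, abs_neg, abs_mul, abs_of_pos p3]
  constructor
  · intro hz
    refine ⟨h₁ z hz, h₂ z hz, ?_⟩
    have := h₃ z hz
    nlinarith
  · rintro ⟨z1, z2, z3'⟩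
    have z3 : |u₃ z| ≤ 1 := by
      by_contra hcon
      push Not at hcon
      nlinarith
    have R2 : ∀ z, l₂ * u₂ z + l₃ * u₃ z + l₁ * u₁ z = 0 := fun z => by
      have := R z; linarith
    have R3 : ∀ z, l₃ * u₃ z + l₁ * u₁ z + l₂ * u₂ z = 0 := fun z => by
      have := R z; linarith
    have i2 : ∀ w, u₂ w = 0 → u₃ w = 0 → u₁ w = 0 → w = 0 := fun w x y t => inj w t x y
    have i3 : ∀ w, u₃ w = 0 → u₁ w = 0 → u₂ w = 0 → w = 0 := fun w x y t => inj w y t x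
    -- a positive maximal value
    have S1 : ∀ z, u₁ z ≤ 1 → |u₂ z| ≤ u₁ z → |u₃ z| ≤ u₁ z → z ∈ K := fun z x y t =>
      mainstep hc hs ha₂ ha₃ h12 h13 h23 h32 R p2 p3 e1 inj x y t
    have S2 : ∀ z, u₂ z ≤ 1 → |u₃ z| ≤ u₂ z → |u₁ z| ≤ u₂ z → z ∈ K := fun z x y t =>
      mainstep hc hs ha₃ ha₁ h23 h21 h31 h13 R2 p3 p1 (by linarith) i2 x y t
    have S3 : ∀ z, u₃ z ≤ 1 → |u₁ z| ≤ u₃ z → |u₂ z| ≤ u₃ z → z ∈ K := fun z x y t =>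
      mainstep hc hs ha₁ ha₂ h31 h32 h12 h21 R3 p1 p2 (by linarith) i3 x y t
    have hneg : -z ∈ K → z ∈ K := fun h => by simpa using hs _ h
    have T1 : |u₂ z| ≤ |u₁ z| → |u₃ z| ≤ |u₁ z| → z ∈ K := by
      intro x y
      rcases le_total 0 (u₁ z) with h | h
      · rw [abs_of_nonneg h] at x y z1
        exact S1 z z1 x y
      · rw [abs_of_nonpos h] at x y z1
        exact hneg (S1 (-z) (by simpa using z1) (by simpa using x) (by simpa using y))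
    have T2 : |u₃ z| ≤ |u₂ z| → |u₁ z| ≤ |u₂ z| → z ∈ K := by
      intro x y
      rcases le_total 0 (u₂ z) with h | h
      · rw [abs_of_nonneg h] at x y z2
        exact S2 z z2 x y
      · rw [abs_of_nonpos h] at x y z2
        exact hneg (S2 (-z) (by simpa using z2) (by simpa using x) (by simpa using y))
    have T3 : |u₁ z| ≤ |u₃ z| → |u₂ z| ≤ |u₃ z| → z ∈ K := by
      intro x y
      rcases le_total 0 (u₃ z) with h | h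
      · rw [abs_of_nonneg h] at x y z3
        exact S3 z z3 x y
      · rw [abs_of_nonpos h] at x y z3
        exact hneg (S3 (-z) (by simpa using z3) (by simpa using x) (by simpa using y))
    rcases le_total (|u₁ z|) (|u₂ z|) with h | h
    · rcases le_total (|u₂ z|) (|u₃ z|) with h' | h'
      · exact T3 (h.trans h') h'
      · exact T2 h' h
    · rcases le_total (|u₁ z|) (|u₃ z|) with h' | h'
      · exact T3 h' (h.trans h')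
      · exact T1 h h'

theorem normal_form {K : Set (ℝ × ℝ)} (hc : Convex ℝ K) (hs : ∀ z ∈ K, -z ∈ K)
    {a₁ a₂ a₃ : ℝ × ℝ} (ha₁ : a₁ ∈ K) (ha₂ : a₂ ∈ K) (ha₃ : a₃ ∈ K)
    {u₁ u₂ u₃ : (ℝ × ℝ) →ₗ[ℝ] ℝ} (h₁ : ∀ z ∈ K, |u₁ z| ≤ 1) (h₂ : ∀ z ∈ K, |u₂ z| ≤ 1)
    (h₃ : ∀ z ∈ K, |u₃ z| ≤ 1) (h12 : u₁ a₂ = 1) (h13 : u₁ a₃ = -1) (h23 : u₂ a₃ = 1)
    (h21 : u₂ a₁ = -1) (h31 : u₃ a₁ = 1) (h32 : u₃ a₂ = -1) :
    (∃ Φ : (ℝ × ℝ) ≃ₗ[ℝ] (ℝ × ℝ), ∀ z, z ∈ K ↔ |(Φ z).1| ≤ 1 ∧ |(Φ z).2| ≤ 1) ∨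
    ∃ (Φ : (ℝ × ℝ) ≃ₗ[ℝ] (ℝ × ℝ)) (l₁ l₂ l₃ : ℝ), 0 < l₁ ∧ 0 < l₂ ∧ 0 < l₃ ∧
      l₁ < l₂ + l₃ ∧ l₂ < l₁ + l₃ ∧ l₃ < l₁ + l₂ ∧
      ∀ z, z ∈ K ↔ |(Φ z).1| ≤ 1 ∧ |(Φ z).2| ≤ 1 ∧ |l₁ * (Φ z).1 + l₂ * (Φ z).2| ≤ l₃ := by
  -- coordinates of the functionals
  have form : ∀ (u : (ℝ × ℝ) →ₗ[ℝ] ℝ) (z : ℝ × ℝ), u z = u (1, 0) * z.1 + u (0, 1) * z.2 := by
    intro u z
    have : z = z.1 • ((1 : ℝ), (0 : ℝ)) + z.2 • ((0 : ℝ), (1 : ℝ)) := by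
      ext <;> simp
    conv_lhs => rw [this]
    rw [map_add, map_smul, map_smul, smul_eq_mul, smul_eq_mul]
    ring
  obtain ⟨p₁, hp₁⟩ : ∃ x, x = u₁ (1, 0) := ⟨_, rfl⟩
  obtain ⟨q₁, hq₁⟩ : ∃ x, x = u₁ (0, 1) := ⟨_, rfl⟩
  obtain ⟨p₂, hp₂⟩ : ∃ x, x = u₂ (1, 0) := ⟨_, rfl⟩
  obtain ⟨q₂, hq₂⟩ : ∃ x, x = u₂ (0, 1) := ⟨_, rfl⟩
  obtain ⟨p₃, hp₃⟩ : ∃ x, x = u₃ (1, 0) := ⟨_, rfl⟩
  obtain ⟨q₃, hq₃⟩ : ∃ x, x = u₃ (0, 1) := ⟨_, rfl⟩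
  have f1 := form u₁
  have f2 := form u₂
  have f3 := form u₃
  rw [← hp₁, ← hq₁] at f1
  rw [← hp₂, ← hq₂] at f2
  rw [← hp₃, ← hq₃] at f3
  obtain ⟨l₁, hl₁⟩ : ∃ x, x = p₂ * q₃ - p₃ * q₂ := ⟨_, rfl⟩
  obtain ⟨l₂, hl₂⟩ : ∃ x, x = p₃ * q₁ - p₁ * q₃ := ⟨_, rfl⟩
  obtain ⟨l₃, hl₃⟩ : ∃ x, x = p₁ * q₂ - p₂ * q₁ := ⟨_, rfl⟩
  have R : ∀ z, l₁ * u₁ z + l₂ * u₂ z + l₃ * u₃ z = 0 := by
    intro z
    rw [f1, f2, f3, hl₁, hl₂, hl₃]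
    ring
  have r1 := R a₁
  have r2 := R a₂
  have r3 := R a₃
  rw [h21, h31] at r1
  rw [h12, h32] at r2
  rw [h13, h23] at r3
  have b1 := abs_le.1 (h₁ a₁ ha₁)
  have b2 := abs_le.1 (h₂ a₂ ha₂)
  have b3 := abs_le.1 (h₃ a₃ ha₃)
  -- the joint kernel is zero when some `l` is nonzero
  have inj : (l₁ ≠ 0 ∨ l₂ ≠ 0 ∨ l₃ ≠ 0) →
      ∀ w, u₁ w = 0 → u₂ w = 0 → u₃ w = 0 → w = 0 := by
    intro hl w w1 w2 w3
    rw [f1] at w1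
    rw [f2] at w2
    rw [f3] at w3
    have x1 : l₃ * w.1 = 0 := by rw [hl₃]; linear_combination q₂ * w1 - q₁ * w2
    have x2 : l₃ * w.2 = 0 := by rw [hl₃]; linear_combination p₁ * w2 - p₂ * w1
    have y1 : l₁ * w.1 = 0 := by rw [hl₁]; linear_combination q₃ * w2 - q₂ * w3
    have y2 : l₁ * w.2 = 0 := by rw [hl₁]; linear_combination p₂ * w3 - p₃ * w2
    have v1 : l₂ * w.1 = 0 := by rw [hl₂]; linear_combination q₁ * w3 - q₃ * w1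
    have v2 : l₂ * w.2 = 0 := by rw [hl₂]; linear_combination p₃ * w1 - p₁ * w3
    rcases hl with h | h | h
    · exact Prod.ext ((mul_eq_zero.1 y1).resolve_left h) ((mul_eq_zero.1 y2).resolve_left h)
    · exact Prod.ext ((mul_eq_zero.1 v1).resolve_left h) ((mul_eq_zero.1 v2).resolve_left h)
    · exact Prod.ext ((mul_eq_zero.1 x1).resolve_left h) ((mul_eq_zero.1 x2).resolve_left h)
  -- some `l` is nonzero
  have hl : l₁ ≠ 0 ∨ l₂ ≠ 0 ∨ l₃ ≠ 0 := by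
    by_contra hcon
    push Not at hcon
    obtain ⟨z1, z2, z3⟩ := hcon
    rw [f1] at h12 h13
    rw [f2] at h23 h21
    rw [f3] at h31 h32
    rw [z1] at hl₁
    rw [z2] at hl₂
    rw [z3] at hl₃
    -- `u₂ = - u₁`, `u₃ = - u₁`
    have c1 : p₃ = -p₁ := by linear_combination (-p₃) * h12 + (-a₂.2) * hl₂ + p₁ * h32
    have c2 : q₃ = -q₁ := by linear_combination (-q₃) * h12 + a₂.1 * hl₂ + q₁ * h32
    have c3 : p₂ = -p₁ := by linear_combination p₂ * h13 + (-a₃.2) * hl₃ - p₁ * h23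
    have c4 : q₂ = -q₁ := by linear_combination q₂ * h13 + a₃.1 * hl₃ - q₁ * h23
    rw [c3, c4] at h21
    rw [c1, c2] at h31
    linarith
  have inj' := inj hl
  have a1 : |l₂ - l₃| ≤ |l₁| := by
    have e : l₂ - l₃ = l₁ * u₁ a₁ := by linarith
    rw [e, abs_mul]
    exact mul_le_of_le_one_right (abs_nonneg _) (h₁ a₁ ha₁)
  have a2 : |l₃ - l₁| ≤ |l₂| := by
    have e : l₃ - l₁ = l₂ * u₂ a₂ := by linarith
    rw [e, abs_mul]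
    exact mul_le_of_le_one_right (abs_nonneg _) (h₂ a₂ ha₂)
  have a3 : |l₁ - l₂| ≤ |l₃| := by
    have e : l₁ - l₂ = l₃ * u₃ a₃ := by linarith
    rw [e, abs_mul]
    exact mul_le_of_le_one_right (abs_nonneg _) (h₃ a₃ ha₃)
  have hsign : (0 ≤ l₁ ∧ 0 ≤ l₂ ∧ 0 ≤ l₃) ∨ (l₁ ≤ 0 ∧ l₂ ≤ 0 ∧ l₃ ≤ 0) := by
    rw [abs_le] at a1 a2 a3
    rcases abs_cases l₁ with ⟨c1, d1⟩ | ⟨c1, d1⟩ <;> rcases abs_cases l₂ with ⟨c2, d2⟩ | ⟨c2, d2⟩ <;>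
      rcases abs_cases l₃ with ⟨c3, d3⟩ | ⟨c3, d3⟩ <;> rw [c1] at a1 <;> rw [c2] at a2 <;>
      rw [c3] at a3 <;> first
        | (left; refine ⟨?_, ?_, ?_⟩ <;> linarith)
        | (right; refine ⟨?_, ?_, ?_⟩ <;> linarith)
  rcases hsign with ⟨s1, s2, s3⟩ | ⟨s1, s2, s3⟩
  · rw [abs_of_nonneg s1] at a1
    rw [abs_of_nonneg s2] at a2
    rw [abs_of_nonneg s3] at a3
    rw [abs_le] at a1 a2 a3
    have hpos : 0 < l₁ + l₂ + l₃ := by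
      rcases hl with h | h | h
      · have := lt_of_le_of_ne s1 (Ne.symm h); linarith
      · have := lt_of_le_of_ne s2 (Ne.symm h); linarith
      · have := lt_of_le_of_ne s3 (Ne.symm h); linarith
    exact core hc hs ha₁ ha₂ ha₃ h₁ h₂ h₃ h12 h13 h23 h21 h31 h32 R s1 s2 s3 hpos
      (by linarith [a3.2]) (by linarith [a1.2]) (by linarith [a2.2]) inj'
  · rw [abs_of_nonpos s1] at a1
    rw [abs_of_nonpos s2] at a2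
    rw [abs_of_nonpos s3] at a3
    rw [abs_le] at a1 a2 a3
    have hpos : 0 < -l₁ + -l₂ + -l₃ := by
      rcases hl with h | h | h
      · have := lt_of_le_of_ne s1 h; linarith
      · have := lt_of_le_of_ne s2 h; linarith
      · have := lt_of_le_of_ne s3 h; linarith
    exact core hc hs ha₁ ha₂ ha₃ h₁ h₂ h₃ h12 h13 h23 h21 h31 h32
      (l₁ := -l₁) (l₂ := -l₂) (l₃ := -l₃) (fun z => by have := R z; linarith)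
      (by linarith) (by linarith) (by linarith) hpos
      (by linarith [a3.1]) (by linarith [a1.1]) (by linarith [a2.1]) inj'

end Pool.Agent.Lib.MP_825ff6_co.Pl
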