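import Mathlib

/-!
JOB Six. Five half-size copies of the hexagon do not cover it.

Proof in words. Coordinates `z₁ = x`, `z₂ = y`, `z₃ = -(l₁ x + l₂ y) / l₃`, so `l₁ z₁ + l₂ z₂ + l₃ z₃ = 0`; hexagon `H`: `|z_k| ≤ 1`;
tile of `t`: `|z_k - t_k| ≤ 1/2`, `k = 1, 2, 3` (divide the third inequality by `l₃`). For `σ` in the open interval
`J = {σ | 0 < σ < 1, l₁ - l₂ < σ l₃ < l₁, l₃ - l₂ < σ l₃ < l₃ + l₁ - l₂}` (nonempty: `max (0, l₁ - l₂, l₃ - l₂) < min (l₃, l₁, l₃ + l₁ - l₂)`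
by `0 < l_k` and the strict triangle inequalities) let
`α = (σ l₃ - l₁) / l₂ ∈ (-1, 0)`, `γ = (l₂ - (1 - σ) l₃) / l₁ ∈ (0, 1)`,
`X = (1, α, -σ)`, `Y = (γ, -1, 1 - σ)`, `Z = Y - X = (γ - 1, -1 - α, 1)` (all satisfy `l · = 0`, all in `H`).
The six points `X, Y, Z, -X, -Y, -Z` are in `H` (as pairs: `X = (1, α)`, `Y = (γ, -1)`, `Z = (γ - 1, -1 - α)`).
If `T.card ≤ 5`, by pigeonhole two of the six points lie in one tile `t ∈ T`, so they differ by at most `1` in every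
coordinate. Non-consecutive ones do not: `X - Z = 2X - Y` has first coordinate `2 - γ > 1`, `X + Y` has first coordinate `1 + γ > 1`,
`Y + Z = 2Y - X` has second coordinate `-2 - α < -1`, `2X`: first coordinate 2, `2Y`: second coordinate -2, `2Z`: third coordinate 2 (up to
sign these are all: pairs (X,Z), (X,-X), (X,-Y), (Y,-X), (Y,-Y), (Y,-Z), (Z,-Z), (Z,-Y), (-X,-Z)). So the pair is consecutive, and
(X,Y): `Y₃ - X₃ = 1`, so `t₃ = 1/2 - σ`;  (Y,Z): `Y₁ - Z₁ = 1`, `t₁ = γ - 1/2`;  (Z,-X): `(-X)₂ - Z₂ = 1`, `t₂ = -1/2 - α`;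
(-X,-Y): `t₃ = σ - 1/2`;  (-Y,-Z): `t₁ = 1/2 - γ`;  (-Z,X): `t₂ = 1/2 + α`.
`α` and `γ` are strictly increasing functions of `σ`, so in each case `σ` is determined by `t`: `σ` belongs to the finite set of
the at most 30 values `1/2 - t₃, 1/2 + t₃, ...` (`t ∈ T`). But `J` is infinite (`Set.Ioo_infinite`). Contradiction.
-/

set_option autoImplicit false

namespace Pool.Agent.Lib.MP_825ff6_co.Pl

private def sixPt (α γ : ℝ) : Fin 6 → ℝ × ℝ :=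
  ![(1, α), (γ, -1), (γ - 1, -1 - α), (-1, -α), (-γ, 1), (1 - γ, 1 + α)]

private theorem six_pair {l₁ l₂ l₃ s α γ : ℝ} (h₃ : 0 < l₃)
    (hα : l₂ * α = s - l₁) (hγ : l₁ * γ = l₂ - l₃ + s) (hα0 : α < 0) (hα1 : -1 < α)
    (hγ0 : 0 < γ) (hγ1 : γ < 1) (t : ℝ × ℝ) (i j : Fin 6) (hij : i < j)
    (hi : |(sixPt α γ i).1 - t.1| ≤ 1 / 2 ∧ |(sixPt α γ i).2 - t.2| ≤ 1 / 2 ∧
      |l₁ * ((sixPt α γ i).1 - t.1) + l₂ * ((sixPt α γ i).2 - t.2)| ≤ l₃ / 2)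
    (hj : |(sixPt α γ j).1 - t.1| ≤ 1 / 2 ∧ |(sixPt α γ j).2 - t.2| ≤ 1 / 2 ∧
      |l₁ * ((sixPt α γ j).1 - t.1) + l₂ * ((sixPt α γ j).2 - t.2)| ≤ l₃ / 2) :
    s = l₃ / 2 + (l₁ * t.1 + l₂ * t.2) ∨ s = l₃ / 2 - (l₁ * t.1 + l₂ * t.2) ∨
    s = l₃ - (l₂ - l₁ * (1 / 2 + t.1)) ∨ s = l₃ - (l₂ - l₁ * (1 / 2 - t.1)) ∨
    s = l₁ - l₂ * (1 / 2 + t.2) ∨ s = l₁ + l₂ * (t.2 - 1 / 2) := by
  obtain ⟨a1, a2, a3⟩ := hi
  obtain ⟨b1, b2, b3⟩ := hj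
  rw [abs_le] at a1 a2 a3 b1 b2 b3
  obtain ⟨a1, a1'⟩ := a1
  obtain ⟨a2, a2'⟩ := a2
  obtain ⟨a3, a3'⟩ := a3
  obtain ⟨b1, b1'⟩ := b1
  obtain ⟨b2, b2'⟩ := b2
  obtain ⟨b3, b3'⟩ := b3
  fin_cases i <;> fin_cases j <;> first | (exact absurd hij (by decide)) | skip
  all_goals simp [sixPt] at a1 a1' a2 a2' a3 a3' b1 b1' b2 b2' b3 b3'
  all_goals first
    | (exfalso; linarith)
    | (left; linarith)
    | (right; left; linarith)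
    | (have e : γ = 1 / 2 + t.1 := by linarith
       rw [e] at hγ
       right; right; left; linarith)
    | (have e : γ = 1 / 2 - t.1 := by linarith
       rw [e] at hγ
       right; right; right; left; linarith)
    | (have e : α = -(1 / 2) - t.2 := by linarith
       rw [e] at hα
       right; right; right; right; left; linarith)
    | (have e : α = t.2 - 1 / 2 := by linarith
       rw [e] at hα
       right; right; right; right; right; linarith)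

private theorem six_mem {l₁ l₂ l₃ s α γ : ℝ}
    (hs0 : 0 < s) (hs1 : s < l₃)
    (hα : l₂ * α = s - l₁) (hγ : l₁ * γ = l₂ - l₃ + s) (hα0 : α < 0) (hα1 : -1 < α)
    (hγ0 : 0 < γ) (hγ1 : γ < 1) (i : Fin 6) :
    |(sixPt α γ i).1| ≤ 1 ∧ |(sixPt α γ i).2| ≤ 1 ∧ |l₁ * (sixPt α γ i).1 + l₂ * (sixPt α γ i).2| ≤ l₃ := by
  fin_cases i <;> refine ⟨abs_le.2 ⟨?_, ?_⟩, abs_le.2 ⟨?_, ?_⟩, abs_le.2 ⟨?_, ?_⟩⟩ <;> simp [sixPt] <;> linarith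

theorem six_le_card {l₁ l₂ l₃ : ℝ} (h₁ : 0 < l₁) (h₂ : 0 < l₂) (h₃ : 0 < l₃)
    (h123 : l₁ < l₂ + l₃) (h213 : l₂ < l₁ + l₃) (h312 : l₃ < l₁ + l₂) (T : Finset (ℝ × ℝ))
    (hT : ∀ z : ℝ × ℝ, |z.1| ≤ 1 → |z.2| ≤ 1 → |l₁ * z.1 + l₂ * z.2| ≤ l₃ →
      ∃ t ∈ T, |z.1 - t.1| ≤ 1 / 2 ∧ |z.2 - t.2| ≤ 1 / 2 ∧
        |l₁ * (z.1 - t.1) + l₂ * (z.2 - t.2)| ≤ l₃ / 2) : 6 ≤ T.card := by
  classical
  by_contra hcon
  have hlt : max 0 (max (l₁ - l₂) (l₃ - l₂)) < min l₃ (min l₁ (l₃ + l₁ - l₂)) := by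
    refine lt_min (max_lt h₃ (max_lt ?_ ?_)) (lt_min (max_lt h₁ (max_lt ?_ ?_)) (max_lt ?_ (max_lt ?_ ?_))) <;> linarith
  have hsub : Set.Ioo (max 0 (max (l₁ - l₂) (l₃ - l₂))) (min l₃ (min l₁ (l₃ + l₁ - l₂))) ⊆
      ((T.biUnion fun t => ({l₃ / 2 + (l₁ * t.1 + l₂ * t.2), l₃ / 2 - (l₁ * t.1 + l₂ * t.2), l₃ - (l₂ - l₁ * (1 / 2 + t.1)),
        l₃ - (l₂ - l₁ * (1 / 2 - t.1)), l₁ - l₂ * (1 / 2 + t.2), l₁ + l₂ * (t.2 - 1 / 2)} : Finset ℝ) : Finset ℝ) : Set ℝ) := by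
    intro s hs
    obtain ⟨hs0, hs1⟩ := hs
    rw [max_lt_iff, max_lt_iff] at hs0
    rw [lt_min_iff, lt_min_iff] at hs1
    obtain ⟨hs0, hs2, hs3⟩ := hs0
    obtain ⟨hs1, hs4, hs5⟩ := hs1
    have hα : l₂ * ((s - l₁) / l₂) = s - l₁ := mul_div_cancel₀ _ h₂.ne'
    have hγ : l₁ * ((l₂ - l₃ + s) / l₁) = l₂ - l₃ + s := mul_div_cancel₀ _ h₁.ne'
    have hα0 : (s - l₁) / l₂ < 0 := by
      rw [div_lt_iff₀ h₂]
      linarith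
    have hα1 : -1 < (s - l₁) / l₂ := by
      rw [lt_div_iff₀ h₂]
      linarith
    have hγ0 : 0 < (l₂ - l₃ + s) / l₁ := by
      rw [lt_div_iff₀ h₁]
      linarith
    have hγ1 : (l₂ - l₃ + s) / l₁ < 1 := by
      rw [div_lt_iff₀ h₁]
      linarith
    generalize (s - l₁) / l₂ = α at hα hα0 hα1
    generalize (l₂ - l₃ + s) / l₁ = γ at hγ hγ0 hγ1
    have hcov : ∀ i : Fin 6, ∃ t ∈ T, |(sixPt α γ i).1 - t.1| ≤ 1 / 2 ∧ |(sixPt α γ i).2 - t.2| ≤ 1 / 2 ∧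
        |l₁ * ((sixPt α γ i).1 - t.1) + l₂ * ((sixPt α γ i).2 - t.2)| ≤ l₃ / 2 := fun i =>
      have h := six_mem hs0 hs1 hα hγ hα0 hα1 hγ0 hγ1 i
      hT _ h.1 h.2.1 h.2.2
    choose f hfT hf using hcov
    obtain ⟨i, -, j, -, hij, hfij⟩ := Finset.exists_ne_map_eq_of_card_lt_of_maps_to
      (s := (Finset.univ : Finset (Fin 6))) (t := T) (by rw [Finset.card_univ, Fintype.card_fin]; omega) (f := f)
      (fun i _ => hfT i)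
    rw [Finset.mem_coe, Finset.mem_biUnion]
    have key : ∀ i j : Fin 6, i < j → f i = f j → ∃ t ∈ T, s ∈ ({l₃ / 2 + (l₁ * t.1 + l₂ * t.2), l₃ / 2 - (l₁ * t.1 + l₂ * t.2), l₃ - (l₂ - l₁ * (1 / 2 + t.1)),
        l₃ - (l₂ - l₁ * (1 / 2 - t.1)), l₁ - l₂ * (1 / 2 + t.2), l₁ + l₂ * (t.2 - 1 / 2)} : Finset ℝ) := by
      intro i j hij h
      refine ⟨f i, hfT i, ?_⟩
      have hj := hf j
      rw [← h] at hj
      have h6 := six_pair h₃ hα hγ hα0 hα1 hγ0 hγ1 (f i) i j hij (hf i) hj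
      simp only [Finset.mem_insert, Finset.mem_singleton]
      exact h6
    rcases lt_or_gt_of_ne hij with h | h
    · exact key i j h hfij
    · exact key j i h hfij.symm
  exact Set.Ioo_infinite hlt ((Finset.finite_toSet _).subset hsub)

end Pool.Agent.Lib.MP_825ff6_co.Pl
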