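import Mathlib

/-!
JOB Mid. If the difference body `K - K` of a planar convex body has area at most `4 vol K`, then its slices are exactly
the sums of the slices of `K` and `- K` at the balanced heights.

Proof in words. Put `w = q - p`. For `s ∈ [p, q]` let `s' = p + q - s`; the slice of `D = K - K` at first coordinate
`2 s - p - q = s - s'` contains the interval `[l s - r s', r s - l s']` (differences of points of the slices of `K` at `s`
and `s'`), of length `(r s - l s) + (r s' - l s')`. By Fubini (`Measure.volume_eq_prod`, `Measure.prod_apply`, slices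
`Prod.mk t ⁻¹' K`, of volume `ENNReal.ofReal (r t - l t)` for `t ∈ [p, q]` and empty otherwise)
`vol K = ∫ t in [p, q], (r t - l t)` and, substituting `τ = 2 s - p - q`,
`vol D ≥ ∫ τ in [-w, w], vol (D_τ) = 2 ∫ s in [p, q], vol (D_{2s-p-q}) ≥ 2 ∫ s in [p, q], (r s - l s) + (r s' - l s') = 4 vol K`
(reflection `s ↦ p + q - s` preserves the measure). So `vol (D_{2s-p-q}) = (r s - l s) + (r s' - l s')` for almost every `s`,
because `vol D ≤ 4 vol K < ∞` (for example by `lintegral_strict_mono_of_ae_le_of_ae_lt_on`).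
Suppose the claim fails for `a, b ∈ (p, q)`: with `s₀ = (a - b + p + q) / 2 ∈ (p, q)`, `s₀' = (b - a + p + q) / 2`,
`r a - l b > r s₀ - l s₀'`. `l` and `r` are continuous on `(p, q)` (`ConvexOn.continuousOn`, interior of `Icc`), hence for all
`s` near `s₀`, with `a(s) = a + 2 (s - s₀) ∈ (p, q)` one still has `r (a(s)) - l b > r s - l s'`, and `a(s) - b = 2 s - p - q`, so the
slice `D_{2s-p-q}` contains the point `r (a(s)) - l b` and, being convex (`D` is convex), the interval
`[l s - r s', r (a(s)) - l b]`, of length `> (r s - l s) + (r s' - l s')`: on a neighbourhood of `s₀`, a set of positive measure.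
Contradiction.
(`hk`, `hc` give measurability of `K` and `K - K`: both are compact.)
-/

set_option autoImplicit false

namespace Pool.Agent.Lib.MP_825ff6_co.Pl

open Set MeasureTheory Pointwise

private theorem mid_conv {D : Set (ℝ × ℝ)} (hD : Convex ℝ D) {t u v z : ℝ} (hu : (t, u) ∈ D)
    (hv : (t, v) ∈ D) (h1 : u ≤ z) (h2 : z ≤ v) : (t, z) ∈ D := by
  rcases eq_or_lt_of_le (h1.trans h2) with h | h
  · have h3 : z = u := le_antisymm (h2.trans h.symm.le) h1
    rw [h3]
    exact hu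
  · have h0 : 0 < v - u := by linarith
    have h3 : (v - z) / (v - u) + (z - u) / (v - u) = 1 := by
      rw [← add_div, div_eq_one_iff_eq h0.ne']
      ring
    have h4 := hD hu hv (div_nonneg (by linarith) h0.le : (0 : ℝ) ≤ (v - z) / (v - u))
      (div_nonneg (by linarith) h0.le : (0 : ℝ) ≤ (z - u) / (v - u)) h3
    have h5 : ((v - z) / (v - u)) • (t, u) + ((z - u) / (v - u)) • (t, v) = (t, z) := by
      refine Prod.ext ?_ ?_
      · show (v - z) / (v - u) * t + (z - u) / (v - u) * t = t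
        rw [← add_mul, h3, one_mul]
      · show (v - z) / (v - u) * u + (z - u) / (v - u) * v = z
        field_simp
        ring
    rw [h5] at h4
    exact h4

private theorem mid_scale {F : ℝ → ENNReal} (hF : Measurable F) (c : ℝ) :
    ∫⁻ t, F ((t + c) / 2) = 2 * ∫⁻ t, F t := by
  have h1 : ∫⁻ t, F ((t + c) / 2) = ∫⁻ t, F (t / 2) :=
    lintegral_add_right_eq_self (fun t => F (t / 2)) c
  have h2 : ∫⁻ t, F (t / 2) = ∫⁻ t, F t ∂(Measure.map (fun t : ℝ => (2 : ℝ)⁻¹ * t) volume) := by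
    rw [lintegral_map hF (measurable_const_mul _)]
    refine lintegral_congr fun t => ?_
    rw [div_eq_inv_mul]
  rw [h1, h2, Real.map_volume_mul_left (by norm_num : (2 : ℝ)⁻¹ ≠ 0), lintegral_smul_measure,
    inv_inv, abs_of_pos (by norm_num : (0 : ℝ) < 2), smul_eq_mul]
  norm_num

theorem mid_ineq {K : Set (ℝ × ℝ)} (hc : Convex ℝ K) (hk : IsCompact K)
    {p q : ℝ} {l r : ℝ → ℝ} (hpq : p < q) (hK : ∀ z ∈ K, p ≤ z.1 ∧ z.1 ≤ q)
    (hlr : ∀ t, p ≤ t → t ≤ q → l t ≤ r t)
    (hs : ∀ t y, p ≤ t → t ≤ q → ((t, y) ∈ K ↔ l t ≤ y ∧ y ≤ r t))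
    (hl : ConvexOn ℝ (Icc p q) l) (hr : ConcaveOn ℝ (Icc p q) r)
    (hv : volume (K - K) ≤ 4 * volume K) :
    ∀ a ∈ Ioo p q, ∀ b ∈ Ioo p q,
      r a - l b ≤ r ((a - b + p + q) / 2) - l ((b - a + p + q) / 2) := by
  have hKm : MeasurableSet K := hk.measurableSet
  have hDc : IsCompact (K - K) := by
    rw [sub_eq_add_neg]
    exact hk.add hk.neg
  have hDm : MeasurableSet (K - K) := hDc.measurableSet
  have hDv : Convex ℝ (K - K) := hc.sub hc
  obtain ⟨c, hcc⟩ : ∃ c : ℝ, c = p + q := ⟨_, rfl⟩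
  obtain ⟨F, hF⟩ : ∃ F : ℝ → ENNReal, F = fun t => volume (Prod.mk t ⁻¹' K) := ⟨_, rfl⟩
  obtain ⟨g, hg⟩ : ∃ g : ℝ → ENNReal, g = fun t => volume (Prod.mk t ⁻¹' (K - K)) := ⟨_, rfl⟩
  have hFm : Measurable F := by
    rw [hF]
    exact measurable_measure_prodMk_left hKm
  have hgm : Measurable g := by
    rw [hg]
    exact measurable_measure_prodMk_left hDm
  have hVK : volume K = ∫⁻ t, F t := by
    rw [hF, Measure.volume_eq_prod, Measure.prod_apply hKm]
  have hVD : volume (K - K) = ∫⁻ t, g t := by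
    rw [hg, Measure.volume_eq_prod, Measure.prod_apply hDm]
  have hFin : ∀ t, p ≤ t → t ≤ q → F t = ENNReal.ofReal (r t - l t) := by
    intro t h1 h2
    have h3 : Prod.mk t ⁻¹' K = Icc (l t) (r t) := by
      ext y
      exact hs t y h1 h2
    rw [hF]
    show volume (Prod.mk t ⁻¹' K) = _
    rw [h3, Real.volume_Icc]
  have hFout : ∀ t, ¬(p ≤ t ∧ t ≤ q) → F t = 0 := by
    intro t h1
    have h3 : Prod.mk t ⁻¹' K = ∅ := by
      rw [Set.eq_empty_iff_forall_notMem]
      intro y hy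
      exact h1 (hK (t, y) hy)
    rw [hF]
    show volume (Prod.mk t ⁻¹' K) = _
    rw [h3, measure_empty]
  -- the extreme points of the slices of the difference body
  have hlo : ∀ t, p ≤ (t + c) / 2 → (t + c) / 2 ≤ q →
      (t, l ((t + c) / 2) - r ((c - t) / 2)) ∈ K - K := by
    intro t h1 h2
    have h3 : p ≤ (c - t) / 2 := by
      rw [hcc] at h2 ⊢
      linarith
    have h4 : (c - t) / 2 ≤ q := by
      rw [hcc] at h1 ⊢
      linarith
    have h5 : ((t + c) / 2, l ((t + c) / 2)) ∈ K := (hs _ _ h1 h2).2 ⟨le_rfl, hlr _ h1 h2⟩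
    have h6 : ((c - t) / 2, r ((c - t) / 2)) ∈ K := (hs _ _ h3 h4).2 ⟨hlr _ h3 h4, le_rfl⟩
    refine Set.mem_sub.2 ⟨_, h5, _, h6, ?_⟩
    refine Prod.ext ?_ rfl
    show (t + c) / 2 - (c - t) / 2 = t
    ring
  have hup : ∀ t x, p ≤ x + t → x + t ≤ q → p ≤ x → x ≤ q →
      (t, r (x + t) - l x) ∈ K - K := by
    intro t x h1 h2 h3 h4
    have h5 : (x + t, r (x + t)) ∈ K := (hs _ _ h1 h2).2 ⟨hlr _ h1 h2, le_rfl⟩
    have h6 : (x, l x) ∈ K := (hs _ _ h3 h4).2 ⟨le_rfl, hlr _ h3 h4⟩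
    refine Set.mem_sub.2 ⟨_, h5, _, h6, ?_⟩
    refine Prod.ext ?_ rfl
    show x + t - x = t
    ring
  have hlow : ∀ t, p ≤ (t + c) / 2 → (t + c) / 2 ≤ q → ∀ z, (t, z) ∈ K - K →
      l ((t + c) / 2) - r ((c - t) / 2) ≤ z →
      ENNReal.ofReal (z - (l ((t + c) / 2) - r ((c - t) / 2))) ≤ g t := by
    intro t h1 h2 z hz hz'
    have h3 : Icc (l ((t + c) / 2) - r ((c - t) / 2)) z ⊆ Prod.mk t ⁻¹' (K - K) := by
      intro y hy
      exact mid_conv hDv (hlo t h1 h2) hz hy.1 hy.2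
    have h4 := measure_mono (μ := volume) h3
    rw [Real.volume_Icc] at h4
    rw [hg]
    exact h4
  have hsum : ∀ t, p ≤ (t + c) / 2 → (t + c) / 2 ≤ q →
      F ((t + c) / 2) + F ((c - t) / 2) = ENNReal.ofReal ((r ((t + c) / 2) - l ((c - t) / 2)) -
        (l ((t + c) / 2) - r ((c - t) / 2))) := by
    intro t h1 h2
    have h3 : p ≤ (c - t) / 2 := by
      rw [hcc] at h2 ⊢
      linarith
    have h4 : (c - t) / 2 ≤ q := by
      rw [hcc] at h1 ⊢
      linarith
    rw [hFin _ h1 h2, hFin _ h3 h4, ← ENNReal.ofReal_add (sub_nonneg.2 (hlr _ h1 h2))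
      (sub_nonneg.2 (hlr _ h3 h4))]
    congr 1
    ring
  have hfg : ∀ t, F ((t + c) / 2) + F ((c - t) / 2) ≤ g t := by
    intro t
    by_cases h : p ≤ (t + c) / 2 ∧ (t + c) / 2 ≤ q
    · obtain ⟨h1, h2⟩ := h
      have h3 : p ≤ (c - t) / 2 := by
        rw [hcc] at h2 ⊢
        linarith
      have h4 : (c - t) / 2 ≤ q := by
        rw [hcc] at h1 ⊢
        linarith
      rw [hsum t h1 h2]
      have h5 : (c - t) / 2 + t = (t + c) / 2 := by ring
      have h6 := hup t ((c - t) / 2) (by rw [h5]; exact h1) (by rw [h5]; exact h2) h3 h4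
      rw [h5] at h6
      refine hlow t h1 h2 _ h6 ?_
      have h7 := hlr _ h1 h2
      have h8 := hlr _ h3 h4
      linarith
    · have h' : ¬(p ≤ (c - t) / 2 ∧ (c - t) / 2 ≤ q) := by
        intro h1
        apply h
        rw [hcc] at h1 ⊢
        constructor <;> linarith [h1.1, h1.2]
      rw [hFout _ h, hFout _ h', add_zero]
      exact zero_le
  have hint1 : ∫⁻ t, F ((t + c) / 2) = 2 * volume K := by
    rw [mid_scale hFm c, hVK]
  have hint2 : ∫⁻ t, F ((c - t) / 2) = 2 * volume K := by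
    have h1 : ∫⁻ t, F ((c - t) / 2) = ∫⁻ t, F ((0 - t + c) / 2) := by
      refine lintegral_congr fun t => ?_
      congr 1
      ring
    have h2 := lintegral_sub_left_eq_self (μ := (volume : Measure ℝ))
      (fun t => F ((t + c) / 2)) 0
    rw [h1, h2, hint1]
  have hm1 : Measurable fun t : ℝ => F ((t + c) / 2) :=
    hFm.comp ((measurable_id.add_const c).div_const 2)
  have hint : ∫⁻ t, (F ((t + c) / 2) + F ((c - t) / 2)) = 4 * volume K := by
    rw [lintegral_add_left hm1, hint1, hint2, ← add_mul]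
    norm_num
  have hKfin : volume K ≠ ⊤ := hk.measure_lt_top.ne
  have hae : (fun t => F ((t + c) / 2) + F ((c - t) / 2)) =ᵐ[volume] g := by
    refine ae_eq_of_ae_le_of_lintegral_le (Filter.Eventually.of_forall hfg) ?_ hgm.aemeasurable ?_
    · rw [hint]
      exact ENNReal.mul_ne_top (by norm_num) hKfin
    · rw [hint, ← hVD]
      exact hv
  intro a ha b hb
  by_contra hcon
  push Not at hcon
  have hrc : ∀ x ∈ Ioo p q, ContinuousAt r x := by
    intro x hx
    have h1 := hr.continuousOn_interior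
    rw [interior_Icc] at h1
    exact h1.continuousAt (Ioo_mem_nhds hx.1 hx.2)
  have hlc : ∀ x ∈ Ioo p q, ContinuousAt l x := by
    intro x hx
    have h1 := hl.continuousOn_interior
    rw [interior_Icc] at h1
    exact h1.continuousAt (Ioo_mem_nhds hx.1 hx.2)
  obtain ⟨t₀, ht₀⟩ : ∃ t₀ : ℝ, t₀ = a - b := ⟨_, rfl⟩
  have e1 : b + t₀ = a := by rw [ht₀]; ring
  have e2 : (t₀ + c) / 2 = (a - b + p + q) / 2 := by rw [ht₀, hcc]; ring
  have e3 : (c - t₀) / 2 = (b - a + p + q) / 2 := by rw [ht₀, hcc]; ring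
  have hA : b + t₀ ∈ Ioo p q := by rw [e1]; exact ha
  have hB : (t₀ + c) / 2 ∈ Ioo p q := by
    rw [e2]
    constructor <;> linarith [ha.1, ha.2, hb.1, hb.2]
  have hC : (c - t₀) / 2 ∈ Ioo p q := by
    rw [e3]
    constructor <;> linarith [ha.1, ha.2, hb.1, hb.2]
  have c1 : ContinuousAt (fun t => r (b + t)) t₀ :=
    ContinuousAt.comp (g := r) (f := fun t => b + t) (hrc _ hA)
      (continuousAt_const.add continuousAt_id)
  have c2 : ContinuousAt (fun t => r ((t + c) / 2)) t₀ :=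
    ContinuousAt.comp (g := r) (f := fun t => (t + c) / 2) (hrc _ hB)
      ((continuousAt_id.add continuousAt_const).div_const 2)
  have c3 : ContinuousAt (fun t => l ((c - t) / 2)) t₀ :=
    ContinuousAt.comp (g := l) (f := fun t => (c - t) / 2) (hlc _ hC)
      ((continuousAt_const.sub continuousAt_id).div_const 2)
  have h1 : ∀ᶠ t in nhds t₀, r ((t + c) / 2) - l ((c - t) / 2) < r (b + t) - l b := by
    refine (c2.sub c3).eventually_lt (c1.sub continuousAt_const) ?_
    show r ((t₀ + c) / 2) - l ((c - t₀) / 2) < r (b + t₀) - l b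
    rw [e1, e2, e3]
    exact hcon
  have h2 : ∀ᶠ t in nhds t₀, b + t ∈ Ioo p q :=
    (continuousAt_const.add continuousAt_id : ContinuousAt (fun t => b + t) t₀)
      (Ioo_mem_nhds hA.1 hA.2)
  have h3 : ∀ᶠ t in nhds t₀, (t + c) / 2 ∈ Ioo p q :=
    ((continuousAt_id.add continuousAt_const).div_const 2 :
      ContinuousAt (fun t => (t + c) / 2) t₀) (Ioo_mem_nhds hB.1 hB.2)
  have h4 : ∀ᶠ t in nhds t₀, (c - t) / 2 ∈ Ioo p q :=
    ((continuousAt_const.sub continuousAt_id).div_const 2 :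
      ContinuousAt (fun t => (c - t) / 2) t₀) (Ioo_mem_nhds hC.1 hC.2)
  obtain ⟨t, ht1, ht2, ht3, ht4, ht5⟩ := (Measure.dense_of_ae hae).inter_nhds_nonempty
    (h1.and (h2.and (h3.and h4)))
  have h5 := hup t b ht3.1.le ht3.2.le hb.1.le hb.2.le
  have h6 := hlr _ ht4.1.le ht4.2.le
  have h7 := hlr _ ht5.1.le ht5.2.le
  have h8 := hlow t ht4.1.le ht4.2.le _ h5 (by linarith)
  have h9 : F ((t + c) / 2) + F ((c - t) / 2) = g t := ht1
  rw [hsum t ht4.1.le ht4.2.le] at h9
  rw [← h9] at h8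
  have h10 := (ENNReal.ofReal_le_ofReal_iff (by linarith)).1 h8
  linarith

end Pool.Agent.Lib.MP_825ff6_co.Pl
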