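import Pool.Agent.Lib.MP_825ff6_co.Pl.Slice
import Pool.Agent.Lib.MP_825ff6_co.Pl.Mid
import Pool.Agent.Lib.MP_825ff6_co.Pl.Const

/-!
JOB Symm. A planar convex body with `vol (K - K) ≤ 4 vol K` is centrally symmetric.

Proof in words. Take `p, q, l, r` from `exists_slices` and put `g t = l (p + q - t)`, convex on `(p, q)`. `mid_ineq` at
`(a, b)` with `b = p + q - c` is the hypothesis of `const_of_mid`. So there is `k` with `r t + l (p + q - t) = k` for
`t ∈ (p, q)`. Let `C = (p + q, k)`. For `z = (t, y) ∈ K` with `p < t < q`: `l t ≤ y ≤ r t`, so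
`k - y ≥ k - r t = l (p + q - t)` and `k - y ≤ k - l t = r (p + q - t)` (apply the identity at `p + q - t`), so `C - z ∈ K`.
If `t = p` or `t = q`: take `z₀ ∈ K` with `p < z₀.1 < q` (for example the midpoint of points with first coordinates `p`, `q`,
or any interior point); the points `z_n = (1 - 1/(n+1)) z + (1/(n+1)) z₀` are in `K` with first coordinate in `(p, q)`, so
`C - z_n ∈ K`, and `C - z ∈ K` because `K` is closed.
-/

set_option autoImplicit false

namespace Pool.Agent.Lib.MP_825ff6_co.Pl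

open Set MeasureTheory Pointwise

theorem symm_of_volume {K : Set (ℝ × ℝ)} (hc : Convex ℝ K) (hk : IsCompact K)
    (hi : (interior K).Nonempty) (hv : volume (K - K) ≤ 4 * volume K) :
    ∃ c : ℝ × ℝ, ∀ z ∈ K, c - z ∈ K := by
  obtain ⟨p, q, l, r, hpq, hKb, hlr, hs, hl, hr⟩ := exists_slices hc hk hi
  have hm := mid_ineq hc hk hpq hKb hlr hs hl hr hv
  have hg : ConvexOn ℝ (Ioo p q) fun t => l (p + q - t) := by
    refine ⟨convex_Ioo p q, fun x hx y hy a b ha hb hab => ?_⟩
    have h1 : p + q - x ∈ Icc p q := ⟨by linarith [hx.2], by linarith [hx.1]⟩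
    have h2 : p + q - y ∈ Icc p q := ⟨by linarith [hy.2], by linarith [hy.1]⟩
    have h3 := hl.2 h1 h2 ha hb hab
    have h4 : p + q - (a • x + b • y) = a • (p + q - x) + b • (p + q - y) := by
      simp only [smul_eq_mul]
      linear_combination (-(p + q)) * hab
    change l (p + q - (a • x + b • y)) ≤ _
    rw [h4]
    exact h3
  have h : ∀ a ∈ Ioo p q, ∀ c ∈ Ioo p q, r a - l (p + q - c) ≤
      r ((a + c) / 2) - l (p + q - (a + c) / 2) := by
    intro a ha c hc'
    have h1 := hm a ha (p + q - c) ⟨by linarith [hc'.2], by linarith [hc'.1]⟩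
    have h2 : (a - (p + q - c) + p + q) / 2 = (a + c) / 2 := by ring
    have h3 : (p + q - c - a + p + q) / 2 = p + q - (a + c) / 2 := by ring
    rw [h2, h3] at h1
    exact h1
  obtain ⟨k, hk'⟩ := const_of_mid hg h
  have key : ∀ z ∈ K, p < z.1 → z.1 < q → (p + q, k) - z ∈ K := by
    intro z hz h1 h2
    have h3 := (hs z.1 z.2 h1.le h2.le).mp hz
    have h4 := hk' z.1 ⟨h1, h2⟩
    have h5 := hk' (p + q - z.1) ⟨by linarith, by linarith⟩
    have h6 : p + q - (p + q - z.1) = z.1 := by ring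
    rw [h6] at h5
    have h7 : (p + q, k) - z = (p + q - z.1, k - z.2) := rfl
    rw [h7]
    exact (hs _ _ (by linarith) (by linarith)).mpr ⟨by linarith [h3.2], by linarith [h3.1]⟩
  have hmid1 : p ≤ (p + q) / 2 := by linarith
  have hmid2 : (p + q) / 2 ≤ q := by linarith
  have hz0 : ((p + q) / 2, l ((p + q) / 2)) ∈ K :=
    (hs _ _ hmid1 hmid2).mpr ⟨le_rfl, hlr _ hmid1 hmid2⟩
  set z0 : ℝ × ℝ := ((p + q) / 2, l ((p + q) / 2)) with hz0def
  refine ⟨(p + q, k), fun z hz => ?_⟩
  have ht : Filter.Tendsto (fun n : ℕ => (p + q, k) -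
      ((1 - 1 / ((n : ℝ) + 1)) • z + (1 / ((n : ℝ) + 1)) • z0)) Filter.atTop
      (nhds ((p + q, k) - ((1 - (0 : ℝ)) • z + (0 : ℝ) • z0))) := by
    have h0 := tendsto_one_div_add_atTop_nhds_zero_nat (𝕜 := ℝ)
    exact tendsto_const_nhds.sub (((tendsto_const_nhds.sub h0).smul_const z).add (h0.smul_const z0))
  rw [sub_zero, one_smul, zero_smul, add_zero] at ht
  refine hk.isClosed.mem_of_tendsto ht (Filter.Eventually.of_forall fun n => ?_)
  have hn : (0 : ℝ) < 1 / ((n : ℝ) + 1) := Nat.one_div_pos_of_nat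
  have hn1 : 1 / ((n : ℝ) + 1) ≤ 1 := by
    rw [div_le_one (by positivity)]
    have : (0 : ℝ) ≤ n := Nat.cast_nonneg n
    linarith
  set e : ℝ := 1 / ((n : ℝ) + 1) with he
  have hmem : (1 - e) • z + e • z0 ∈ K := hc hz hz0 (by linarith) hn.le (by ring)
  have hb := hKb z hz
  have h1 : ((1 - e) • z + e • z0).1 = (1 - e) * z.1 + e * ((p + q) / 2) := rfl
  refine key _ hmem ?_ ?_
  · rw [h1]
    nlinarith
  · rw [h1]
    nlinarith

end Pool.Agent.Lib.MP_825ff6_co.Pl
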