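import Pool.Agent.Lib.MP_825ff6_co.Basic

/-!
JOB Trans. Invariance of tightness, and products.

Proof in words. (1) For a linear equivalence `Ψ` and a vector `c`, the map `z ↦ Ψ z + c` carries homothets of `K` to homothets of the
image: `x ∈ homothet K t r ↔ Ψ x + c ∈ homothet (image) (Ψ t + (1 - r) c) r`. So a finset `T` of centres covers `K` iff the
transformed finset covers the image, the covering numbers agree (two sets of natural numbers are equal), and packings
correspond to packings.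
(2) Let `M = coveringNumber (K₁ ×ˢ K₂) r`, `N_i = coveringNumber K_i r`, and let `P₂ ⊆ K₂`, `P₂.card = N₂`, be the packing given
by tightness of `K₂`. For each `y ∈ P₂` the slice `K₁ × {y}` is covered by the homothets of an optimal cover of `K₁ ×ˢ K₂`
which meet it, at least `N₁` of them (their first coordinates give a cover of `K₁`), and different `y` use different homothets (a
homothet meeting two of the slices would contain two points of `P₂` in one homothet of `K₂`). So `M ≥ N₁ N₂`. On the other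
hand let `P` be the packing of `K₁ ×ˢ K₂` with `M` points, and cover `K₂` by `N₂` homothets: assign to every `p ∈ P` one of these
homothets containing `p.2`; some homothet gets at least `N₁` points of `P` (pigeonhole, `M ≥ N₁ N₂`; if `N₂ = 0`... does not occur, as
`K₂` is nonempty). These points have different first coordinates, no two of which are in one homothet of `K₁` (otherwise
the two points of `P` would be in one homothet of `K₁ ×ˢ K₂`: here `(t₁, t₂) + r (K₁ × K₂) = (t₁ + r K₁) × (t₂ + r K₂)`). Take `N₁` of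
them: a packing of `K₁` with `N₁` points.
-/

set_option autoImplicit false

namespace Pool.Agent.Lib.MP_825ff6_co.Pl

open Set

private theorem trans_mem {E F : Type*} [NormedAddCommGroup E] [NormedSpace ℝ E]
    [NormedAddCommGroup F] [NormedSpace ℝ F] (Ψ : E ≃ₗ[ℝ] F) (c : F) {K : Set E} (t x : E) (r : ℝ) :
    Ψ x + c ∈ homothet ((fun z => Ψ z + c) '' K) (Ψ t + (1 - r) • c) r ↔ x ∈ homothet K t r := by
  constructor
  · rintro ⟨k', ⟨k, hk, rfl⟩, h⟩
    refine ⟨k, hk, ?_⟩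
    apply Ψ.injective
    have h1 : Ψ x + c = Ψ t + (1 - r) • c + r • (Ψ k + c) := h
    have h2 : Ψ t + (1 - r) • c + r • (Ψ k + c) = (Ψ t + r • Ψ k) + c := by
      rw [smul_add, sub_smul, one_smul]
      abel
    rw [h2] at h1
    rw [map_add, map_smul]
    exact add_right_cancel h1
  · rintro ⟨k, hk, h⟩
    refine ⟨Ψ k + c, ⟨k, hk, rfl⟩, ?_⟩
    rw [h, map_add, map_smul, smul_add, sub_smul, one_smul]
    abel

private theorem trans_num {E F : Type*} [NormedAddCommGroup E] [NormedSpace ℝ E]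
    [NormedAddCommGroup F] [NormedSpace ℝ F] (Ψ : E ≃ₗ[ℝ] F) (c : F) {K : Set E} (r : ℝ) :
    coveringNumber ((fun z => Ψ z + c) '' K) r = coveringNumber K r := by
  classical
  unfold coveringNumber
  apply congrArg
  ext n
  constructor
  · rintro ⟨T, hT, hc⟩
    refine ⟨T.image fun s => Ψ.symm (s - (1 - r) • c), ?_, ?_⟩
    · rw [Finset.card_image_of_injective, hT]
      intro a b hab
      have h1 := Ψ.symm.injective hab
      exact sub_left_injective h1
    · intro x hx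
      obtain ⟨t, ht, h⟩ := hc (Ψ x + c) ⟨x, hx, rfl⟩
      refine ⟨_, Finset.mem_image_of_mem _ ht, ?_⟩
      rw [← trans_mem Ψ c, LinearEquiv.apply_symm_apply, sub_add_cancel]
      exact h
  · rintro ⟨T, hT, hc⟩
    refine ⟨T.image fun t => Ψ t + (1 - r) • c, ?_, ?_⟩
    · rw [Finset.card_image_of_injective, hT]
      intro a b hab
      have h1 : Ψ a + (1 - r) • c = Ψ b + (1 - r) • c := hab
      exact Ψ.injective (add_right_cancel h1)
    · rintro y ⟨x, hx, rfl⟩
      obtain ⟨t, ht, h⟩ := hc x hx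
      exact ⟨_, Finset.mem_image_of_mem _ ht, (trans_mem Ψ c t x r).mpr h⟩

theorem tightlyCovered_image {E F : Type*} [NormedAddCommGroup E] [NormedSpace ℝ E]
    [NormedAddCommGroup F] [NormedSpace ℝ F] (Ψ : E ≃ₗ[ℝ] F) (c : F) {K : Set E}
    (h : TightlyCovered K) : TightlyCovered ((fun z => Ψ z + c) '' K) := by
  classical
  intro r h0 h1
  obtain ⟨P, hP, hc, hp⟩ := h r h0 h1
  refine ⟨P.image fun z => Ψ z + c, ?_, ?_, ?_⟩
  · intro y hy
    obtain ⟨x, hx, rfl⟩ := Finset.mem_image.mp (Finset.mem_coe.mp hy)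
    exact ⟨x, hP (Finset.mem_coe.mpr hx), rfl⟩
  · rw [Finset.card_image_of_injective, hc, trans_num]
    intro a b hab
    have h2 : Ψ a + c = Ψ b + c := hab
    exact Ψ.injective (add_right_cancel h2)
  · intro t x hx y hy hxt hyt
    obtain ⟨x', hx', rfl⟩ := Finset.mem_image.mp hx
    obtain ⟨y', hy', rfl⟩ := Finset.mem_image.mp hy
    have ht : Ψ (Ψ.symm (t - (1 - r) • c)) + (1 - r) • c = t := by
      rw [LinearEquiv.apply_symm_apply, sub_add_cancel]
    rw [← ht] at hxt hyt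
    have h3 := hp (Ψ.symm (t - (1 - r) • c)) x' hx' y' hy' ((trans_mem Ψ c _ x' r).mp hxt)
      ((trans_mem Ψ c _ y' r).mp hyt)
    rw [h3]

private theorem trans_prod {E F : Type*} [NormedAddCommGroup E] [NormedSpace ℝ E]
    [NormedAddCommGroup F] [NormedSpace ℝ F] {K₁ : Set E} {K₂ : Set F} (t p : E × F) (r : ℝ) :
    p ∈ homothet (K₁ ×ˢ K₂) t r ↔ p.1 ∈ homothet K₁ t.1 r ∧ p.2 ∈ homothet K₂ t.2 r := by
  constructor
  · rintro ⟨k, hk, h⟩
    exact ⟨⟨k.1, hk.1, by rw [h]; rfl⟩, ⟨k.2, hk.2, by rw [h]; rfl⟩⟩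
  · rintro ⟨⟨k, hk, h⟩, ⟨l, hl, h'⟩⟩
    exact ⟨(k, l), ⟨hk, hl⟩, Prod.ext h h'⟩

private theorem trans_le {E : Type*} [NormedAddCommGroup E] [NormedSpace ℝ E] {K : Set E} {r : ℝ}
    (T : Finset E) (hT : ∀ x ∈ K, ∃ t ∈ T, x ∈ homothet K t r) : coveringNumber K r ≤ T.card :=
  Nat.sInf_le ⟨T, rfl, hT⟩

private theorem trans_mul {E F : Type*} [NormedAddCommGroup E] [NormedSpace ℝ E]
    [NormedAddCommGroup F] [NormedSpace ℝ F] {K₁ : Set E} {K₂ : Set F} (r : ℝ)
    (P₂ : Finset F) (hP : (P₂ : Set F) ⊆ K₂)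
    (hp : ∀ t : F, ∀ x ∈ P₂, ∀ y ∈ P₂, x ∈ homothet K₂ t r → y ∈ homothet K₂ t r → x = y)
    (T : Finset (E × F)) (hT : ∀ x ∈ K₁ ×ˢ K₂, ∃ t ∈ T, x ∈ homothet (K₁ ×ˢ K₂) t r) :
    P₂.card * coveringNumber K₁ r ≤ T.card := by
  classical
  have h1 : ∀ y ∈ P₂, coveringNumber K₁ r ≤ (T.filter fun t => y ∈ homothet K₂ t.2 r).card := by
    intro y hy
    refine (trans_le ((T.filter fun t => y ∈ homothet K₂ t.2 r).image Prod.fst) ?_).trans
      Finset.card_image_le
    intro x hx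
    obtain ⟨t, ht, h⟩ := hT (x, y) ⟨hx, hP (Finset.mem_coe.mpr hy)⟩
    rw [trans_prod] at h
    exact ⟨t.1, Finset.mem_image_of_mem _ (Finset.mem_filter.mpr ⟨ht, h.2⟩), h.1⟩
  have h2 : (P₂.biUnion fun y => T.filter fun t => y ∈ homothet K₂ t.2 r).card =
      ∑ y ∈ P₂, (T.filter fun t => y ∈ homothet K₂ t.2 r).card := by
    apply Finset.card_biUnion
    intro x hx y hy hxy
    apply Finset.disjoint_left.mpr
    intro t ht ht'
    exact hxy (hp t.2 x hx y hy (Finset.mem_filter.mp ht).2 (Finset.mem_filter.mp ht').2)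
  have h3 : (P₂.biUnion fun y => T.filter fun t => y ∈ homothet K₂ t.2 r) ⊆ T := by
    intro t ht
    obtain ⟨y, _, h⟩ := Finset.mem_biUnion.mp ht
    exact (Finset.mem_filter.mp h).1
  have h4 := Finset.card_le_card h3
  rw [h2] at h4
  have h5 := Finset.card_nsmul_le_sum P₂ _ _ h1
  rw [smul_eq_mul] at h5
  exact h5.trans h4

theorem tightlyCovered_fst {E F : Type*} [NormedAddCommGroup E] [NormedSpace ℝ E]
    [NormedAddCommGroup F] [NormedSpace ℝ F] {K₁ : Set E} {K₂ : Set F}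
    (hk₁ : IsCompact K₁) (hi₁ : (interior K₁).Nonempty)
    (hk₂ : IsCompact K₂) (hi₂ : (interior K₂).Nonempty)
    (h₂ : TightlyCovered K₂) (h : TightlyCovered (K₁ ×ˢ K₂)) : TightlyCovered K₁ := by
  classical
  intro r h0 h1
  obtain ⟨P, hP, hPc, hPp⟩ := h r h0 h1
  obtain ⟨P₂, hP₂, hP₂c, hP₂p⟩ := h₂ r h0 h1
  have hi : (interior (K₁ ×ˢ K₂)).Nonempty := by
    rw [interior_prod_eq]
    exact hi₁.prod hi₂
  obtain ⟨T, hTc, hT⟩ := coveringNumber_spec (hk₁.prod hk₂) hi h0
  obtain ⟨T₂, hT₂c, hT₂⟩ := coveringNumber_spec hk₂ hi₂ h0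
  have hM := trans_mul r P₂ hP₂ hP₂p T hT
  have hmem : ∀ p ∈ P, ∃ s ∈ T₂, p.2 ∈ homothet K₂ s r := fun p hp =>
    hT₂ p.2 (hP (Finset.mem_coe.mpr hp)).2
  choose! f hf1 hf2 using hmem
  have hne : T₂.Nonempty := by
    obtain ⟨y, hy⟩ := hi₂
    obtain ⟨s, hs, _⟩ := hT₂ y (interior_subset hy)
    exact ⟨s, hs⟩
  have hcard : T₂.card * coveringNumber K₁ r ≤ P.card := by
    rw [hPc, ← hTc, hT₂c, ← hP₂c]
    exact hM
  obtain ⟨s, hs, hfib⟩ := Finset.exists_le_card_fiber_of_mul_le_card_of_maps_to hf1 hne hcard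
  obtain ⟨F', hF', hF'c⟩ := Finset.exists_subset_card_eq hfib
  have key : ∀ p ∈ F', ∀ p' ∈ F', ∀ t : E, p.1 ∈ homothet K₁ t r → p'.1 ∈ homothet K₁ t r →
      p = p' := by
    intro p hp p' hp' t ht ht'
    have hpP := Finset.mem_filter.mp (hF' hp)
    have hpP' := Finset.mem_filter.mp (hF' hp')
    apply hPp (t, s) p hpP.1 p' hpP'.1
    · rw [trans_prod]
      refine ⟨ht, ?_⟩
      have h3 := hf2 p hpP.1
      rw [hpP.2] at h3
      exact h3
    · rw [trans_prod]
      refine ⟨ht', ?_⟩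
      have h3 := hf2 p' hpP'.1
      rw [hpP'.2] at h3
      exact h3
  have hself : ∀ p ∈ F', p.1 ∈ homothet K₁ ((1 - r) • p.1) r := by
    intro p hp
    refine ⟨p.1, (hP (Finset.mem_coe.mpr (Finset.mem_filter.mp (hF' hp)).1)).1, ?_⟩
    rw [← add_smul, sub_add_cancel, one_smul]
  refine ⟨F'.image Prod.fst, ?_, ?_, ?_⟩
  · intro x hx
    obtain ⟨p, hp, rfl⟩ := Finset.mem_image.mp (Finset.mem_coe.mp hx)
    exact (hP (Finset.mem_coe.mpr (Finset.mem_filter.mp (hF' hp)).1)).1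
  · rw [Finset.card_image_of_injOn, hF'c]
    intro p hp p' hp' hpp
    have h4 : p.1 = p'.1 := hpp
    refine key p (Finset.mem_coe.mp hp) p' (Finset.mem_coe.mp hp') _ (hself p hp) ?_
    rw [← h4]
    exact hself p hp
  · intro t x hx y hy hxt hyt
    obtain ⟨p, hp, rfl⟩ := Finset.mem_image.mp hx
    obtain ⟨p', hp', rfl⟩ := Finset.mem_image.mp hy
    rw [key p hp p' hp' t hxt hyt]

end Pool.Agent.Lib.MP_825ff6_co.Pl
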