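import Pool.Agent.Lib.MP_825ff6_co.Volume
import Pool.Agent.Lib.MP_825ff6_co.Pl.Symm
import Pool.Agent.Lib.MP_825ff6_co.Pl.Anti
import Pool.Agent.Lib.MP_825ff6_co.Pl.Funct
import Pool.Agent.Lib.MP_825ff6_co.Pl.Normal
import Pool.Agent.Lib.MP_825ff6_co.Pl.Five
import Pool.Agent.Lib.MP_825ff6_co.Pl.Six
import Pool.Agent.Lib.MP_825ff6_co.Pl.Trans

/-!
JOB Final. Every tightly covered planar convex body is a parallelogram.

Proof in words. (a) symmetric case: `exists_antipodal`, then `exists_functional` for the pairs `(a₂, a₃)`, `(a₃, a₁)`, `(a₁, a₂)`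
(note `(1/2)(a₃ - a₂) = - (1/2)(a₂ - a₃)` and `interior K` is symmetric), then `normal_form`. In the parallelogram case we are
done. In the hexagon case let `K' = Φ '' K` = the hexagon `H`. For ratio `1/2`: a cover of `K` by `N` homothets gives, applying
`Φ`, a cover of `H` as in `six_le_card` (a point `x ∈ t + (1/2) K`, `x - t = (1/2) k`, so `Φ x - Φ t = (1/2) Φ k`), so
`6 ≤ coveringNumber K (1/2)`. The packing `P`: `Φ '' P` is a finset in `H` of the same cardinality, and two different points `x, y ∈ P`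
are separated as in `card_le_five`: otherwise `x - y ∈ K`, and with `t = (1/2)(x + y)`, `x = t + (1/2)(x - y)`, `y = t + (1/2)(y - x)`
are in one homothet of ratio 1/2 (`y - x ∈ K` by symmetry). So `coveringNumber K (1/2) = P.card ≤ 5`. Contradiction.
(b) general case: `measure_half_diff_le` (Volume) with `E = ℝ × ℝ`, `μ = volume`, gives `volume ((1/2) (K - K)) ≤ volume K`, so
`volume (K - K) ≤ 4 volume K` (`Measure.addHaar_smul`, `finrank = 2`), `symm_of_volume` gives `c`, translate by `-c/2`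
(`tightlyCovered_image` with `Ψ = refl`): `K - c/2` is symmetric. Apply (a).
-/

set_option autoImplicit false

namespace Pool.Agent.Lib.MP_825ff6_co.Pl

open Set MeasureTheory Pointwise

theorem planar_symm {K : Set (ℝ × ℝ)} (hc : Convex ℝ K) (hk : IsCompact K)
    (hi : (interior K).Nonempty) (hs : ∀ z ∈ K, -z ∈ K) (h : TightlyCovered K) :
    ∃ Φ : (ℝ × ℝ) ≃ₗ[ℝ] (ℝ × ℝ), ∀ z, z ∈ K ↔ |(Φ z).1| ≤ 1 ∧ |(Φ z).2| ≤ 1 := by
  obtain ⟨a₁, ha₁, a₂, ha₂, a₃, ha₃, h12, h23, h31⟩ := exists_antipodal hk hi hs h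
  obtain ⟨u₁, k₁, e12, e13⟩ := exists_functional hc hi hs ha₂ ha₃ h23
  obtain ⟨u₂, k₂, e23, e21⟩ := exists_functional hc hi hs ha₃ ha₁ h31
  obtain ⟨u₃, k₃, e31, e32⟩ := exists_functional hc hi hs ha₁ ha₂ h12
  rcases normal_form hc hs ha₁ ha₂ ha₃ k₁ k₂ k₃ e12 e13 e23 e21 e31 e32 with hp | hh
  · exact hp
  exfalso
  obtain ⟨Φ, l₁, l₂, l₃, p₁, p₂, p₃, t₁, t₂, t₃, hK⟩ := hh
  classical
  have h6 : 6 ≤ coveringNumber K (1 / 2) := by
    obtain ⟨T, hTc, hT⟩ := coveringNumber_spec hk hi (r := 1 / 2) (by norm_num)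
    rw [← hTc]
    refine (six_le_card p₁ p₂ p₃ t₁ t₂ t₃ (T.image Φ) ?_).trans Finset.card_image_le
    intro z hz1 hz2 hz3
    have hz : Φ.symm z ∈ K := by
      rw [hK, LinearEquiv.apply_symm_apply]
      exact ⟨hz1, hz2, hz3⟩
    obtain ⟨t, ht, k, hk', hzk⟩ := hT _ hz
    refine ⟨Φ t, Finset.mem_image_of_mem _ ht, ?_⟩
    have h1 : z = Φ t + (1 / 2 : ℝ) • Φ k := by
      have h2 := congrArg Φ hzk
      rw [LinearEquiv.apply_symm_apply, map_add, map_smul] at h2
      exact h2
    have h2 : z.1 - (Φ t).1 = 1 / 2 * (Φ k).1 := by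
      rw [h1]
      simp
    have h3 : z.2 - (Φ t).2 = 1 / 2 * (Φ k).2 := by
      rw [h1]
      simp
    obtain ⟨b1, b2, b3⟩ := (hK k).1 hk'
    rw [h2, h3]
    refine ⟨?_, ?_, ?_⟩
    · rw [abs_mul, abs_of_pos (by norm_num : (0 : ℝ) < 1 / 2)]
      linarith
    · rw [abs_mul, abs_of_pos (by norm_num : (0 : ℝ) < 1 / 2)]
      linarith
    · have h4 : l₁ * (1 / 2 * (Φ k).1) + l₂ * (1 / 2 * (Φ k).2) = 1 / 2 * (l₁ * (Φ k).1 + l₂ * (Φ k).2) := by ring
      rw [h4, abs_mul, abs_of_pos (by norm_num : (0 : ℝ) < 1 / 2)]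
      linarith
  obtain ⟨P, hPK, hPc, hP⟩ := h (1 / 2) (by norm_num) (by norm_num)
  have h5 : P.card ≤ 5 := by
    rw [← Finset.card_image_of_injective P Φ.injective]
    refine card_le_five p₁ p₂ p₃ (P.image Φ) ?_ ?_
    · intro z hz
      obtain ⟨x, hx, rfl⟩ := Finset.mem_image.1 hz
      exact (hK x).1 (hPK hx)
    · intro z hz w hw hzw hcl
      obtain ⟨x, hx, rfl⟩ := Finset.mem_image.1 hz
      obtain ⟨y, hy, rfl⟩ := Finset.mem_image.1 hw
      have hxy : x - y ∈ K := by
        rw [hK, map_sub]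
        exact hcl
      have hyx : y - x ∈ K := by
        have := hs _ hxy
        rwa [neg_sub] at this
      have heq : x = y := by
        refine hP ((1 / 2 : ℝ) • (x + y)) x hx y hy ⟨x - y, hxy, ?_⟩ ⟨y - x, hyx, ?_⟩
        · rw [← smul_add]
          have : x + y + (x - y) = (2 : ℝ) • x := by
            rw [two_smul]
            abel
          rw [this, smul_smul]
          norm_num
        · rw [← smul_add]
          have : x + y + (y - x) = (2 : ℝ) • y := by
            rw [two_smul]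
            abel
          rw [this, smul_smul]
          norm_num
      exact hzw (by rw [heq])
  omega

theorem planar {K : Set (ℝ × ℝ)} (hc : Convex ℝ K) (hk : IsCompact K)
    (hi : (interior K).Nonempty) (h : TightlyCovered K) :
    ∃ (Φ : (ℝ × ℝ) ≃ₗ[ℝ] (ℝ × ℝ)) (c : ℝ × ℝ), ∀ z, z ∈ K ↔
      |(Φ (z - c)).1| ≤ 1 ∧ |(Φ (z - c)).2| ≤ 1 := by
  have hv : volume (K - K) ≤ 4 * volume K := by
    have h1 := measure_half_diff_le (volume : Measure (ℝ × ℝ)) hc hk hi h
    rw [Measure.addHaar_smul] at h1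
    have h2 : Module.finrank ℝ (ℝ × ℝ) = 2 := by
      rw [Module.finrank_prod, Module.finrank_self]
    rw [h2] at h1
    have h3 : ENNReal.ofReal |(1 / 2 : ℝ) ^ 2| = 4⁻¹ := by
      rw [abs_of_pos (by norm_num), show ((1 / 2 : ℝ) ^ 2) = (4 : ℝ)⁻¹ by norm_num, ENNReal.ofReal_inv_of_pos (by norm_num)]
      norm_num
    rw [h3] at h1
    calc volume (K - K) = 4 * (4⁻¹ * volume (K - K)) := by
          rw [← mul_assoc, ENNReal.mul_inv_cancel (by norm_num) (by norm_num), one_mul]
      _ ≤ 4 * volume K := mul_le_mul_right h1 4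
  obtain ⟨c, hcK⟩ := symm_of_volume hc hk hi hv
  set v : ℝ × ℝ := (1 / 2 : ℝ) • c with hvdef
  have hcv : c = v + v := by
    rw [hvdef, ← add_smul]
    norm_num
  have hT := tightlyCovered_image (LinearEquiv.refl ℝ (ℝ × ℝ)) (-v) h
  set K' : Set (ℝ × ℝ) := (fun z => (LinearEquiv.refl ℝ (ℝ × ℝ)) z + -v) '' K with hK'
  have hmem : ∀ z, z ∈ K' ↔ z + v ∈ K := by
    intro z
    constructor
    · rintro ⟨w, hw, rfl⟩
      have : (LinearEquiv.refl ℝ (ℝ × ℝ)) w + -v + v = w := neg_add_cancel_right w v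
      rw [this]
      exact hw
    · intro hz
      exact ⟨z + v, hz, add_neg_cancel_right z v⟩
  have hK'2 : K' = (Homeomorph.addRight (-v)) '' K := rfl
  have hconv : Convex ℝ K' := by
    intro x hx y hy a b ha hb hab
    rw [hmem] at hx hy ⊢
    have := hc hx hy ha hb hab
    have e : a • (x + v) + b • (y + v) = a • x + b • y + v := by
      rw [smul_add, smul_add]
      have : a • v + b • v = v := by rw [← add_smul, hab, one_smul]
      calc a • x + a • v + (b • y + b • v) = a • x + b • y + (a • v + b • v) := by abel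
        _ = _ := by rw [this]
    rwa [e] at this
  have hcomp : IsCompact K' := by
    rw [hK'2]
    exact hk.image (Homeomorph.addRight (-v)).continuous
  have hint : (interior K').Nonempty := by
    rw [hK'2, ← Homeomorph.image_interior]
    exact hi.image _
  have hsym : ∀ z ∈ K', -z ∈ K' := by
    intro z hz
    rw [hmem] at hz ⊢
    have := hcK _ hz
    have e : c - (z + v) = -z + v := by
      rw [hcv]
      abel
    rwa [e] at this
  obtain ⟨Φ, hΦ⟩ := planar_symm hconv hcomp hint hsym hT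
  refine ⟨Φ, v, fun z => ?_⟩
  rw [← hΦ, hmem, sub_add_cancel]

end Pool.Agent.Lib.MP_825ff6_co.Pl
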