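import Mathlib

/-!
JOB Slice. Vertical slices of a planar convex body `K`.

Proof in words. `p`, `q` = minimum and maximum of the first coordinate on `K` (attained: `K` is compact and nonempty);
`p < q` because `K` has an interior point `z` and a small horizontal segment around it. For `p ≤ t ≤ q` the slice
`{y | (t, y) ∈ K}` is nonempty (segment between points of `K` with first coordinates `p` and `q`: a point of the segment has
first coordinate `t`), compact and convex, so it is the interval `[l t, r t]` with `l t = sInf`, `r t = sSup` (attained).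
`l` is convex on `[p, q]`: for `t, s` in `[p, q]` and weights `a, b` the point `a (t, l t) + b (s, l s)` is in `K`, so
`l (a t + b s) ≤ a l t + b l s`. In the same way `r` is concave.
-/

set_option autoImplicit false

namespace Pool.Agent.Lib.MP_825ff6_co.Pl

open Set

theorem exists_slices {K : Set (ℝ × ℝ)} (hc : Convex ℝ K) (hk : IsCompact K)
    (hi : (interior K).Nonempty) :
    ∃ (p q : ℝ) (l r : ℝ → ℝ), p < q ∧ (∀ z ∈ K, p ≤ z.1 ∧ z.1 ≤ q) ∧
      (∀ t, p ≤ t → t ≤ q → l t ≤ r t) ∧
      (∀ t y, p ≤ t → t ≤ q → ((t, y) ∈ K ↔ l t ≤ y ∧ y ≤ r t)) ∧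
      ConvexOn ℝ (Icc p q) l ∧ ConcaveOn ℝ (Icc p q) r := by
  classical
  have hne : K.Nonempty := hi.mono interior_subset
  obtain ⟨zp, hzp, hpmin⟩ := hk.exists_isMinOn hne continuous_fst.continuousOn
  obtain ⟨zq, hzq, hqmax⟩ := hk.exists_isMaxOn hne continuous_fst.continuousOn
  have hpq' : ∀ z ∈ K, zp.1 ≤ z.1 ∧ z.1 ≤ zq.1 := fun z hz => ⟨hpmin hz, hqmax hz⟩
  have hpq : zp.1 < zq.1 := by
    obtain ⟨z, hz⟩ := hi
    obtain ⟨e, he, hball⟩ := Metric.isOpen_iff.1 isOpen_interior z hz
    have hin : (z.1 + e / 2, z.2) ∈ K := by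
      apply interior_subset
      apply hball
      rw [Metric.mem_ball, Prod.dist_eq]
      have h1 : dist (z.1 + e / 2) z.1 = e / 2 := by
        rw [Real.dist_eq, add_sub_cancel_left, abs_of_pos (by linarith)]
      simp only [h1, dist_self]
      exact max_lt (by linarith) he
    have h1 := (hpq' _ hin).2
    have h2 := (hpq' _ (interior_subset hz)).1
    simp only at h1
    linarith
  -- slices
  have hslne : ∀ t, zp.1 ≤ t → t ≤ zq.1 → {y | (t, y) ∈ K}.Nonempty := by
    intro t h1 h2
    have hd : (0 : ℝ) < zq.1 - zp.1 := by linarith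
    set b := (t - zp.1) / (zq.1 - zp.1) with hb
    set a := (zq.1 - t) / (zq.1 - zp.1) with ha
    have hb0 : 0 ≤ b := div_nonneg (by linarith) hd.le
    have ha0 : 0 ≤ a := div_nonneg (by linarith) hd.le
    have hab : a + b = 1 := by
      rw [ha, hb, ← add_div, div_eq_one_iff_eq hd.ne']
      ring
    have hmem := hc hzp hzq ha0 hb0 hab
    refine ⟨a * zp.2 + b * zq.2, ?_⟩
    have hfst : a * zp.1 + b * zq.1 = t := by
      rw [ha, hb]
      field_simp
      ring
    have : a • zp + b • zq = (t, a * zp.2 + b * zq.2) := by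
      ext
      · simpa using hfst
      · simp
    simpa [this] using hmem
  have hslc : ∀ t, IsCompact {y | (t, y) ∈ K} := by
    intro t
    have hemb : {y | (t, y) ∈ K} = (fun z : ℝ × ℝ => z.2) '' (K ∩ {z | z.1 = t}) := by
      ext y
      constructor
      · intro hy
        exact ⟨(t, y), ⟨hy, rfl⟩, rfl⟩
      · rintro ⟨z, ⟨hz, hzt⟩, rfl⟩
        have : z = (t, z.2) := by
          ext
          · exact hzt
          · rfl
        show (t, z.2) ∈ K
        rw [← this]
        exact hz
    rw [hemb]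
    exact (hk.inter_right (isClosed_eq continuous_fst continuous_const)).image continuous_snd
  have hlmem : ∀ t, zp.1 ≤ t → t ≤ zq.1 → (t, sInf {y | (t, y) ∈ K}) ∈ K :=
    fun t h1 h2 => (hslc t).sInf_mem (hslne t h1 h2)
  have hrmem : ∀ t, zp.1 ≤ t → t ≤ zq.1 → (t, sSup {y | (t, y) ∈ K}) ∈ K :=
    fun t h1 h2 => (hslc t).sSup_mem (hslne t h1 h2)
  have hlle : ∀ t y, (t, y) ∈ K → sInf {y | (t, y) ∈ K} ≤ y :=
    fun t y hy => csInf_le (hslc t).bddBelow hy
  have hler : ∀ t y, (t, y) ∈ K → y ≤ sSup {y | (t, y) ∈ K} :=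
    fun t y hy => le_csSup (hslc t).bddAbove hy
  have hcomb : ∀ (t s y w a b : ℝ), (t, y) ∈ K → (s, w) ∈ K → 0 ≤ a → 0 ≤ b → a + b = 1 →
      (a * t + b * s, a * y + b * w) ∈ K := by
    intro t s y w a b h1 h2 ha hb hab
    have h := hc h1 h2 ha hb hab
    have e : a • (t, y) + b • (s, w) = (a * t + b * s, a * y + b * w) := by
      ext <;> simp
    rwa [e] at h
  refine ⟨zp.1, zq.1, fun t => sInf {y | (t, y) ∈ K}, fun t => sSup {y | (t, y) ∈ K}, hpq, hpq',
    ?_, ?_, ?_, ?_⟩
  · intro t h1 h2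
    exact hlle t _ (hrmem t h1 h2)
  · intro t y h1 h2
    constructor
    · intro hy
      exact ⟨hlle t y hy, hler t y hy⟩
    · rintro ⟨h3, h4⟩
      have hm1 := hlmem t h1 h2
      have hm2 := hrmem t h1 h2
      set L := sInf {y | (t, y) ∈ K} with hL
      set R := sSup {y | (t, y) ∈ K} with hR
      have h3' : L ≤ y := h3
      have h4' : y ≤ R := h4
      have hsub : y ∈ segment ℝ L R := by
        rw [segment_eq_Icc (h3'.trans h4')]
        exact ⟨h3', h4'⟩
      obtain ⟨a, b, ha, hb, hab, hy⟩ := hsub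
      have h := hcomb t t L R a b hm1 hm2 ha hb hab
      have e1 : a * t + b * t = t := by rw [← add_mul, hab, one_mul]
      have e2 : a * L + b * R = y := by simpa using hy
      rwa [e1, e2] at h
  · refine ⟨convex_Icc _ _, ?_⟩
    intro t ht s hs a b ha hb hab
    simp only [smul_eq_mul]
    exact hlle _ _ (hcomb t s _ _ a b (hlmem t ht.1 ht.2) (hlmem s hs.1 hs.2) ha hb hab)
  · refine ⟨convex_Icc _ _, ?_⟩
    intro t ht s hs a b ha hb hab
    simp only [smul_eq_mul]
    exact hler _ _ (hcomb t s _ _ a b (hrmem t ht.1 ht.2) (hrmem s hs.1 hs.2) ha hb hab)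

end Pool.Agent.Lib.MP_825ff6_co.Pl
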