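import Pool.Agent.Lib.MP_825ff6_co.Basic

/-!
JOB Three. Two smaller homothets of a planar body do not cover it.

Proof in words. Suppose `T.card ≤ 2`. `T` is nonempty (`K` is). Choose `t₁, t₂ ∈ T` with `T ⊆ {t₁, t₂}` and a nonzero linear
functional `f (x, y) = a x + b y` with `f t₁ = f t₂` (`(a, b) = (- (t₁ - t₂).2, (t₁ - t₂).1)`, or `(1, 0)` if `t₁ = t₂`).
`f` attains a maximum `M` and a minimum `m` on the compact set `K`, and `m < M` because `K` has an interior point and `f ≠ 0`.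
If `f x = M`, `x = t + s k` with `t ∈ T`, `k ∈ K` (`s` the ratio): `M = f t₁ + s f k ≤ f t₁ + s M`; in the same way
`m ≥ f t₁ + s m`. So `M - m ≤ s (M - m)`, a contradiction with `s < 1`, `m < M`.
-/

set_option autoImplicit false

namespace Pool.Agent.Lib.MP_825ff6_co.Pl

open Set

theorem three_le_card {K : Set (ℝ × ℝ)} (hk : IsCompact K) (hi : (interior K).Nonempty)
    {s : ℝ} (hs0 : 0 < s) (hs1 : s < 1) (T : Finset (ℝ × ℝ))
    (hT : ∀ x ∈ K, ∃ t ∈ T, x ∈ homothet K t s) : 3 ≤ T.card := by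
  by_contra hlt
  push Not at hlt
  have hne : K.Nonempty := hi.mono interior_subset
  obtain ⟨x₀, hx₀⟩ := hne
  obtain ⟨t₀, ht₀, _⟩ := hT x₀ hx₀
  -- two centres
  obtain ⟨t₁, t₂, ht⟩ : ∃ t₁ t₂ : ℝ × ℝ, ∀ t ∈ T, t = t₁ ∨ t = t₂ := by
    rcases Nat.lt_or_ge T.card 2 with h2 | h2
    · have h1 : T.card ≤ 1 := by omega
      refine ⟨t₀, t₀, fun t htT => Or.inl ?_⟩
      exact Finset.card_le_one.1 h1 t htT t₀ ht₀
    · have h3 : T.card = 2 := by omega
      obtain ⟨a, b, _, hab⟩ := Finset.card_eq_two.1 h3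
      refine ⟨a, b, fun t htT => ?_⟩
      rw [hab] at htT
      simpa using htT
  -- a nonzero functional equal at both centres
  obtain ⟨a, b, hab, hf⟩ : ∃ a b : ℝ, (a ≠ 0 ∨ b ≠ 0) ∧
      a * t₁.1 + b * t₁.2 = a * t₂.1 + b * t₂.2 := by
    by_cases h12 : t₁ = t₂
    · exact ⟨1, 0, Or.inl one_ne_zero, by rw [h12]⟩
    · refine ⟨-(t₁.2 - t₂.2), t₁.1 - t₂.1, ?_, by ring⟩
      by_contra hcon
      push Not at hcon
      apply h12
      ext
      · linarith [hcon.2]
      · linarith [hcon.1]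
  set f : ℝ × ℝ → ℝ := fun z => a * z.1 + b * z.2 with hfdef
  have hfc : Continuous f := by fun_prop
  obtain ⟨xM, hxM, hM⟩ := hk.exists_isMaxOn ⟨x₀, hx₀⟩ hfc.continuousOn
  obtain ⟨xm, hxm, hm⟩ := hk.exists_isMinOn ⟨x₀, hx₀⟩ hfc.continuousOn
  have hM' : ∀ z ∈ K, f z ≤ f xM := fun z hz => hM hz
  have hm' : ∀ z ∈ K, f xm ≤ f z := fun z hz => hm hz
  -- strict inequality
  have hlt' : f xm < f xM := by
    obtain ⟨c, hc⟩ := hi
    obtain ⟨ε, hε, hball⟩ := Metric.isOpen_iff.1 isOpen_interior c hc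
    have hN : 0 < |a| + |b| + 1 := by positivity
    set η := ε / (2 * (|a| + |b| + 1)) with hη
    have hη0 : 0 < η := by positivity
    have hmem : c + (η * a, η * b) ∈ K := by
      apply interior_subset
      apply hball
      rw [Metric.mem_ball, dist_eq_norm, add_sub_cancel_left, Prod.norm_def]
      simp only [Real.norm_eq_abs, abs_mul, abs_of_pos hη0]
      have h1 : η * (|a| + |b| + 1) = ε / 2 := by
        rw [hη]
        field_simp
      have ha0 := abs_nonneg a
      have hb0 := abs_nonneg b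
      apply max_lt
      · nlinarith
      · nlinarith
    have h2 := hM' _ hmem
    have h3 := hm' _ (interior_subset hc)
    have h4 : f (c + (η * a, η * b)) = f c + η * (a ^ 2 + b ^ 2) := by
      simp only [hfdef, Prod.fst_add, Prod.snd_add]
      ring
    have h5 : 0 < a ^ 2 + b ^ 2 := by
      rcases hab with h | h
      · positivity
      · positivity
    have h6 := mul_pos hη0 h5
    linarith
  have key : ∀ x ∈ K, ∃ k ∈ K, f x = f t₁ + s * f k := by
    intro x hx
    obtain ⟨t, htT, k, hkK, hxk⟩ := hT x hx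
    refine ⟨k, hkK, ?_⟩
    have h1 : f t = f t₁ := by
      rcases ht t htT with rfl | rfl
      · rfl
      · exact hf.symm
    rw [hxk, ← h1]
    simp only [hfdef, Prod.fst_add, Prod.snd_add, Prod.smul_fst, Prod.smul_snd, smul_eq_mul]
    ring
  obtain ⟨k₁, hk₁, h1⟩ := key xM hxM
  obtain ⟨k₂, hk₂, h2⟩ := key xm hxm
  have h3 := hM' k₁ hk₁
  have h4 := hm' k₂ hk₂
  nlinarith

end Pool.Agent.Lib.MP_825ff6_co.Pl
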